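import Pool.Agent.H.MP_193109_an.A

open Filter Topology Metric Set Complex ComplexConjugate MeasureTheory
open Real (circleAverage pi_pos two_pi_pos)
open scoped Real
open Pool.Agent.H.MP_5011cf_an Pool.Agent.H.MP_32de40_an Pool.Agent.H.MP_3bea3b_an

namespace Pool.Agent.H.MP_2feb19_an

noncomputable def ext (f : ℂ → ℂ) (z : ℂ) : ℂ := circleAverage (fun ζ => poissonKernel 0 z ζ • f ζ) 0 1

def H1 (f : ℂ → ℂ) : Prop :=
  CircleIntegrable f 0 1 ∧ ∀ n : ℕ, circleAverage (fun ζ => ζ ^ (n + 1) * f ζ) 0 1 = 0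

def Gr (f : ℂ → ℂ) (c : ℂ) (a h D : ℝ) : Prop :=
  ∀ σ, h ≤ σ → ∫ θ in a - σ..a + σ, ‖f (ex θ) - c‖ ≤ D * σ ^ 2

lemma cm (R θ : ℝ) : circleMap 0 R θ = R * ex θ := by simp [circleMap, ex]

lemma cm1 (θ : ℝ) : circleMap 0 1 θ = ex θ := by simp [cm]

section
variable {E : Type} [NormedAddCommGroup E]

lemma per (g : ℂ → E) (R : ℝ) : (fun θ => g (R * ex θ)).Periodic (2 * π) := fun θ => by
  simp only [← cm, periodic_circleMap 0 R θ]

lemma iiR {g : ℂ → E} {R : ℝ} (h : CircleIntegrable g 0 R) (a b : ℝ) :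
    IntervalIntegrable (fun θ => g (R * ex θ)) volume a b :=
  (per g R).intervalIntegrable₀ two_pi_pos.ne' (by simp only [← cm]; exact h) a b

lemma ii {g : ℂ → E} (h : CircleIntegrable g 0 1) (a b : ℝ) :
    IntervalIntegrable (fun θ => g (ex θ)) volume a b := by simpa using iiR h a b

variable [NormedSpace ℝ E]

lemma cavR (g : ℂ → E) (R a : ℝ) :
    circleAverage g 0 R = (2 * π)⁻¹ • ∫ θ in a - π..a + π, g (R * ex θ) := by
  have := (per g R).intervalIntegral_add_eq 0 (a - π)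
  rw [zero_add, show a - π + 2 * π = a + π by ring] at this
  simp only [circleAverage, cm, this]

lemma cav (g : ℂ → E) (a : ℝ) : circleAverage g 0 1 = (2 * π)⁻¹ • ∫ θ in a - π..a + π, g (ex θ) := by
  simpa using cavR g 1 a

end

lemma ex_low {a b : ℝ} (h : |a - b| ≤ π) : |a - b| ≤ 2 * ‖ex a - ex b‖ := by
  have e : ex a - ex b = ex b * (exp (I * (a - b : ℝ)) - 1) := by
    rw [ex, ex, mul_sub, ← exp_add]
    congr 2
    · push_cast; ring
    · exact (mul_one _).symm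
  rw [e, norm_mul, ex_norm, one_mul, norm_exp_I_mul_ofReal_sub_one, norm_mul, Real.norm_eq_abs,
    Real.norm_eq_abs, abs_two]
  have := Real.mul_abs_le_abs_sin (x := (a - b) / 2) (by rw [abs_div, abs_two]; linarith)
  rw [abs_div, abs_two, div_mul_div_comm, mul_comm 2, mul_div_mul_right _ _ two_ne_zero,
    div_le_iff₀ pi_pos] at this
  nlinarith [Real.pi_le_four, abs_nonneg (Real.sin ((a - b) / 2))]

lemma pol (w : ℂ) (a : ℝ) : ∃ θ, |θ - a| ≤ π ∧ w = ‖w‖ * ex θ := by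
  refine ⟨a + (w * ex (-a)).arg, by simpa using abs_arg_le_pi _, ?_⟩
  have := norm_mul_exp_arg_mul_I (w * ex (-a))
  rw [norm_mul, ex_norm, mul_one] at this
  rw [ex, ofReal_add, add_mul, exp_add, mul_left_comm, this, mul_left_comm, ex, ← exp_add]
  simp

lemma dst {τ : ℝ} (t0 : 0 ≤ τ) (a : ℝ) : ‖((1 - τ : ℝ) * ex a : ℂ) - ex a‖ = τ := by
  rw [← sub_one_mul, norm_mul, ex_norm, mul_one, ← ofReal_one, ← ofReal_sub, norm_real,
    Real.norm_of_nonpos (by linarith)]
  ring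

lemma den {τ a θ : ℝ} (t0 : 0 < τ) (t1 : τ ≤ 1) : ‖ex θ - ex a‖ ≤ 2 * ‖ex θ - (1 - τ : ℝ) * ex a‖ ∧
    τ ≤ ‖ex θ - (1 - τ : ℝ) * ex a‖ ∧ ‖ex θ - (1 - τ : ℝ) * ex a‖ ≤ |θ - a| + τ := by
  have e1 := ex_ge θ ((1 - τ : ℝ) * ex a)
  rw [(pt t0 t1 (ex_norm a)).1] at e1
  have e2 := norm_sub_le_norm_sub_add_norm_sub (ex θ) ((1 - τ : ℝ) * ex a) (ex a)
  have e3 := norm_sub_le_norm_sub_add_norm_sub (ex θ) (ex a) ((1 - τ : ℝ) * ex a)
  rw [norm_sub_rev (ex a), dst t0.le] at e3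
  rw [dst t0.le] at e2
  exact ⟨by linarith, e1, by linarith [ex_sub θ a]⟩

lemma spl {g : ℝ → ℝ} (gi : ∀ a b, IntervalIntegrable g volume a b) (a b c d : ℝ) :
    ∫ θ in a..d, g θ = (∫ θ in a..b, g θ) + (∫ θ in b..c, g θ) + ∫ θ in c..d, g θ := by
  rw [intervalIntegral.integral_add_adjacent_intervals (gi _ _) (gi _ _),
    intervalIntegral.integral_add_adjacent_intervals (gi _ _) (gi _ _)]

lemma sub_le {g : ℝ → ℝ} (gi : ∀ a b, IntervalIntegrable g volume a b) (g0 : ∀ θ, 0 ≤ g θ) {a b c d : ℝ}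
    (h1 : a ≤ b) (h2 : b ≤ c) (h3 : c ≤ d) : ∫ θ in b..c, g θ ≤ ∫ θ in a..d, g θ :=
  intervalIntegral.integral_mono_interval h1 h2 h3 (Eventually.of_forall g0) (gi _ _)

lemma ker {g : ℝ → ℝ} (gi : ∀ a b, IntervalIntegrable g volume a b) (g0 : ∀ θ, 0 ≤ g θ) {a h ρ D : ℝ}
    (h0 : 0 < h) (h1 : h ≤ ρ) (hg : ∀ σ, h ≤ σ → ∫ θ in a - σ..a + σ, g θ ≤ D * σ ^ 2) :
    ∫ θ in a - π..a + π, ((h + |θ - a|) * (ρ + |θ - a|) ^ 2)⁻¹ * g θ ≤ 9 * D / ρ := by
  have r0 := h0.trans_le h1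
  have D0 : 0 ≤ D := (mul_nonneg_iff_of_pos_right (pow_pos h0 2)).1
    ((intervalIntegral.integral_nonneg (by linarith) fun θ _ => g0 θ).trans (hg h le_rfl))
  have ki : ∀ b c, IntervalIntegrable (fun θ => ((h + |θ - a|) * (ρ + |θ - a|) ^ 2)⁻¹ * g θ) volume b c :=
    fun b c => (gi b c).continuousOn_mul (Continuous.inv₀ (by fun_prop)
      fun θ => by positivity).continuousOn
  have k : ∀ b c s M : ℝ, b ≤ c → 0 < M → (∀ θ ∈ Icc b c, M ≤ (h + |θ - a|) * (ρ + |θ - a|) ^ 2) →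
      ∫ θ in b..c, ((h + |θ - a|) * (ρ + |θ - a|) ^ 2)⁻¹ * g θ ≤ M⁻¹ * ∫ θ in b..c, g θ :=
    fun b c s M e M0 hM => by
      rw [← intervalIntegral.integral_const_mul]
      exact intervalIntegral.integral_mono_on e (ki _ _) ((gi _ _).const_mul _) fun θ hθ =>
        mul_le_mul_of_nonneg_right (inv_anti₀ M0 (hM θ hθ)) (g0 θ)
  have s : ∀ n : ℕ, ∫ θ in a - 2 ^ n * h..a + 2 ^ n * h, ((h + |θ - a|) * (ρ + |θ - a|) ^ 2)⁻¹ * g θ ≤
      9 * D / ρ - 8 * D / (ρ + 2 ^ n * h) := fun n => by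
    induction n with
    | zero =>
      simp only [pow_zero, one_mul]
      refine (k _ _ 0 (h * ρ ^ 2) (by linarith) (by positivity) fun θ _ => by
        gcongr <;> simp).trans ((mul_le_mul_of_nonneg_left (hg h le_rfl) (by positivity)).trans ?_)
      have : 8 * D / (ρ + h) ≤ 8 * D / ρ := by gcongr; linarith
      have : (h * ρ ^ 2)⁻¹ * (D * h ^ 2) ≤ D / ρ := by
        rw [inv_mul_le_iff₀ (by positivity), show h * ρ ^ 2 * (D / ρ) = D * (h * ρ) by field_simp, sq]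
        gcongr
      linarith [show 9 * D / ρ = D / ρ + 8 * D / ρ by ring]
    | succ n ih =>
      obtain ⟨σ, hσ⟩ : ∃ σ, σ = 2 ^ n * h := ⟨_, rfl⟩
      have s1 : h ≤ σ := hσ ▸ le_mul_of_one_le_left h0.le (one_le_pow₀ one_le_two)
      have s0 := h0.trans_le s1
      rw [pow_succ', mul_assoc, ← hσ, spl ki _ (a - σ) (a + σ)]
      rw [← hσ] at ih
      have m : ∀ θ, σ ≤ |θ - a| → σ * (ρ + σ) ^ 2 ≤ (h + |θ - a|) * (ρ + |θ - a|) ^ 2 := fun θ e => by
        gcongr; linarith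
      have e1 := k (a - 2 * σ) (a - σ) 0 _ (by linarith) (by positivity) fun θ e => m θ
        (le_abs.2 (Or.inr (by linarith [e.2])))
      have e2 := k (a + σ) (a + 2 * σ) 0 _ (by linarith) (by positivity) fun θ e => m θ
        (le_abs.2 (Or.inl (by linarith [e.1])))
      have e3 := hg (2 * σ) (by linarith)
      rw [spl gi _ (a - σ) (a + σ)] at e3
      have e4 := intervalIntegral.integral_nonneg (μ := volume) (show a - σ ≤ a + σ by linarith)
        fun θ _ => g0 θ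
      have e5 : (σ * (ρ + σ) ^ 2)⁻¹ * (D * (2 * σ) ^ 2) ≤ 8 * D / (ρ + σ) - 8 * D / (ρ + 2 * σ) := by
        rw [div_sub_div _ _ (by positivity) (by positivity), inv_mul_eq_div, div_le_div_iff₀ (by positivity)
          (by positivity)]
        nlinarith [show 0 ≤ D * σ ^ 2 * (ρ + σ) * ρ by positivity]
      nlinarith [show 0 < (σ * (ρ + σ) ^ 2)⁻¹ by positivity]
  obtain ⟨n, hn⟩ := pow_unbounded_of_one_lt (π / h) one_lt_two
  rw [div_lt_iff₀ h0] at hn
  exact (sub_le ki (fun θ => by have := g0 θ; positivity) (by linarith) (by linarith [pi_pos])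
    (by linarith)).trans ((s n).trans (sub_le_self _ (by positivity)))

lemma chain {f : ℂ → ℂ} (hf : CircleIntegrable f 0 1) {s β : ℝ} (s0 : 0 < s)
    (h : ∀ x, ∃ c, ∫ θ in x - s..x + s, ‖f (ex θ) - c‖ ≤ β * s) (a : ℝ) : ∃ c, Gr f c a s (27 * β / s) := by
  choose c hc using h
  have gi : ∀ d b e, IntervalIntegrable (fun θ => ‖f (ex θ) - d‖) volume b e := fun d b e =>
    ((ii hf b e).sub intervalIntegrable_const).norm
  have b0 : 0 ≤ β := (mul_nonneg_iff_of_pos_right s0).1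
    ((intervalIntegral.integral_nonneg (by linarith) fun θ _ => norm_nonneg _).trans (hc a))
  have t : ∀ d d' b e, b ≤ e → ∫ θ in b..e, ‖f (ex θ) - d‖ ≤ (∫ θ in b..e, ‖f (ex θ) - d'‖) +
      (e - b) * ‖d' - d‖ := fun d d' b e be => by
    rw [← smul_eq_mul, ← intervalIntegral.integral_const, ← intervalIntegral.integral_add (gi _ _ _)
      intervalIntegrable_const]
    exact intervalIntegral.integral_mono_on be (gi _ _ _) ((gi _ _ _).add intervalIntegrable_const)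
      fun θ _ => norm_sub_le_norm_sub_add_norm_sub _ _ _
  have c1 : ∀ x, ‖c (x + s) - c x‖ ≤ 2 * β := fun x => by
    have e : ∫ _ in x..x + s, ‖c (x + s) - c x‖ ≤ ∫ θ in x..x + s, (‖f (ex θ) - c (x + s)‖ + ‖f (ex θ) - c x‖) :=
      intervalIntegral.integral_mono_on (by linarith) intervalIntegrable_const ((gi _ _ _).add (gi _ _ _))
        fun θ _ => norm_sub_rev (f (ex θ)) (c (x + s)) ▸ norm_sub_le_norm_sub_add_norm_sub _ _ _
    rw [intervalIntegral.integral_const, intervalIntegral.integral_add (gi _ _ _) (gi _ _ _), smul_eq_mul] at e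
    have e1 := (sub_le (gi _) (fun _ => norm_nonneg _) (by linarith) (show x ≤ x + s by linarith)
      le_rfl).trans (hc x)
    have e2 := (sub_le (gi _) (fun _ => norm_nonneg _) (by linarith) (show x ≤ x + s by linarith)
      (by linarith)).trans (hc (x + s))
    exact le_of_mul_le_mul_left (by linarith) s0
  have c2 : ∀ (n : ℕ) x, ‖c (x + n * s) - c x‖ ≤ n * (2 * β) := fun n x => by
    induction n with
    | zero => simp
    | succ n ih =>
      have := c1 (x + n * s)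
      push_cast
      rw [add_one_mul, ← add_assoc]
      linarith [norm_sub_le_norm_sub_add_norm_sub (c (x + n * s + s)) (c (x + n * s)) (c x)]
  have k : ∀ n : ℕ, ∫ θ in a - (2 * n + 1) * s..a + (2 * n + 1) * s, ‖f (ex θ) - c a‖ ≤
      3 * β * s * (2 * n + 1) ^ 2 := fun n => by
    induction n with
    | zero => simpa using (hc a).trans (by nlinarith)
    | succ n ih =>
      have e1 := t (c a) (c (a + (2 * n + 2 : ℕ) * s)) (a + (2 * n + 2 : ℕ) * s - s)
        (a + (2 * n + 2 : ℕ) * s + s) (by linarith)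
      have e2 := t (c a) (c (a - (2 * n + 2 : ℕ) * s)) (a - (2 * n + 2 : ℕ) * s - s)
        (a - (2 * n + 2 : ℕ) * s + s) (by linarith)
      have e3 := mul_le_mul_of_nonneg_left (c2 (2 * n + 2) a) s0.le
      have e4 := mul_le_mul_of_nonneg_left (c2 (2 * n + 2) (a - (2 * n + 2 : ℕ) * s)) s0.le
      rw [sub_add_cancel, norm_sub_rev] at e4
      have e5 := hc (a + (2 * n + 2 : ℕ) * s)
      have e6 := hc (a - (2 * n + 2 : ℕ) * s)
      rw [spl (gi _) _ (a - (2 * n + 1) * s) (a + (2 * n + 1) * s)]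
      push_cast at *
      rw [show a - (2 * (n + 1) + 1) * s = a - (2 * n + 2) * s - s by ring,
        show a + (2 * (n + 1) + 1) * s = a + (2 * n + 2) * s + s by ring]
      rw [show a - (2 * n + 2) * s + s = a - (2 * n + 1) * s by ring] at e2 e6
      rw [show a + (2 * n + 2) * s - s = a + (2 * n + 1) * s by ring] at e1 e5
      nlinarith [show 0 ≤ β * s * n by positivity, show 0 ≤ β * s by positivity]
  refine ⟨c a, fun σ hσ => ?_⟩
  have e1 := Nat.floor_le (show 0 ≤ (σ / s + 1) / 2 by have := s0.trans_le hσ; positivity)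
  have e2 := Nat.lt_floor_add_one ((σ / s + 1) / 2)
  have e3 := (one_le_div s0).2 hσ
  generalize ⌊(σ / s + 1) / 2⌋₊ = n at *
  have e4 : σ ≤ (2 * n + 1) * s := (div_le_iff₀ s0).1 (by linarith)
  refine (sub_le (gi _) (fun _ => norm_nonneg _) (by linarith) (by linarith) (by linarith)).trans
    ((k n).trans ((mul_le_mul_of_nonneg_left (pow_le_pow_left₀ (by positivity)
      (show _ ≤ 3 * (σ / s) by linarith) 2) (by positivity)).trans_eq ?_))
  field_simp
  ring

end Pool.Agent.H.MP_2feb19_an
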