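import Pool.Agent.H.MP_2feb19_an.A

open Filter Topology Metric Set Complex ComplexConjugate MeasureTheory
open Real (circleAverage pi_pos two_pi_pos)
open scoped Real
open Pool.Agent.H.MP_5011cf_an Pool.Agent.H.MP_32de40_an Pool.Agent.H.MP_3bea3b_an

namespace Pool.Agent.H.MP_2feb19_an

variable {f : ℂ → ℂ}

lemma em (θ : ℝ) : ex θ ∈ closedBall (0 : ℂ) 1 := mem_closedBall_zero_iff.2 (ex_norm θ).le

lemma cml {g : ℂ → ℂ} (hf : CircleIntegrable f 0 1) (hg : ContinuousOn g (sphere 0 |1|)) :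
    CircleIntegrable (fun ζ => g ζ * f ζ) 0 1 := hf.continuousOn_mul hg

lemma rep (hf : H1 f) {h : ℂ → ℂ} (hh : Nice h) : circleAverage (fun ζ => ζ * h ζ * f ζ) 0 1 = 0 := by
  obtain ⟨R, R1, hd⟩ := hh
  obtain ⟨r, r1, r2⟩ := exists_between R1
  lift r to NNReal using by linarith
  have r3 : (1 : NNReal) < r := r1
  have p := (hd.mono (closedBall_subset_ball r2)).hasFPowerSeriesOnBall (one_pos.trans r3)
  generalize cauchyPowerSeries h 0 r = q at p
  have s := q.summable_norm_mul_pow (r := 1) ((ENNReal.coe_lt_coe.2 r3).trans_le p.r_le)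
  simp only [NNReal.coe_one, one_pow, mul_one, q.norm_apply_eq_norm_coef] at s
  have i := ii hf.1 (0 - π) (0 + π)
  have c := ex_cont
  have := intervalIntegral.hasSum_integral_of_dominated_convergence (μ := volume) (a := 0 - π) (b := 0 + π)
    (F := fun n θ => q.coeff n * (ex θ ^ (n + 1) * f (ex θ))) (f := fun θ => ex θ * h (ex θ) * f (ex θ))
    (fun n θ => ‖q.coeff n‖ * ‖f (ex θ)‖) (fun n => (intervalIntegrable_iff.1 ((i.continuousOn_mul
      (by fun_prop)).const_mul _)).1) (fun n => Eventually.of_forall fun θ _ => by simp [ex_norm])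
    (Eventually.of_forall fun θ _ => s.mul_right _) (by simpa only [tsum_mul_right] using i.norm.const_mul _)
    (Eventually.of_forall fun θ _ => by
      have := ((p.hasSum (y := ex θ) (by
        rw [mem_eball_zero_iff, ← ofReal_norm_eq_enorm, ex_norm]; simpa using r3)).mul_left (ex θ)).mul_right
          (f (ex θ))
      simp only [q.apply_eq_pow_smul_coeff, zero_add, smul_eq_mul] at this
      exact this.congr_fun fun n => by ring)
  have e : ∀ n : ℕ, ∫ θ in 0 - π..0 + π, ex θ ^ (n + 1) * f (ex θ) = 0 := fun n =>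
    (smul_eq_zero.1 ((cav _ 0).symm.trans (hf.2 n))).resolve_left (by positivity)
  simp only [intervalIntegral.integral_const_mul, e, mul_zero] at this
  rw [cav _ 0, this.unique hasSum_zero, smul_zero]

lemma h1c (c : ℂ) : H1 fun _ => c := ⟨circleIntegrable_const _ _ _, fun n => by
  simpa using DiffContOnCl.circleAverage (f := fun ζ : ℂ => ζ ^ (n + 1) * c) (c := 0) (R := 1)
    (Differentiable.diffContOnCl (by fun_prop))⟩

lemma nz {z ζ : ℂ} (hz : z ∈ ball (0 : ℂ) 1) (h : ζ ∈ sphere (0 : ℂ) |1|) : ζ - z ≠ 0 ∧ 1 - conj z * ζ ≠ 0 ∧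
    (poissonKernel 0 z ζ : ℂ) = (1 - z * conj z) * ζ / ((ζ - z) * (1 - conj z * ζ)) := by
  rw [abs_one, mem_sphere_zero_iff_norm] at h
  have z1 := mem_ball_zero_iff.1 hz
  have e1 : ζ - z ≠ 0 := sub_ne_zero.2 fun e => by linarith [e ▸ h]
  have e2 := mne z1 h.le
  have e3 : ζ * conj ζ = 1 := by rw [mul_conj', h]; simp
  refine ⟨e1, e2, ?_⟩
  simp only [poissonKernel, sub_zero, h]
  push_cast
  rw [← mul_conj', ← mul_conj', map_sub, div_eq_div_iff (mul_ne_zero e1 (by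
    rw [← map_sub]; exact (map_ne_zero _).2 e1)) (mul_ne_zero e1 e2)]
  linear_combination (z * conj z - 1) * (ζ - z) * e3

lemma pc {z : ℂ} {R : ℝ} (hz : z ∈ ball (0 : ℂ) R) : ContinuousOn (poissonKernel 0 z) (sphere 0 |R|) := by
  rw [poissonKernel_eq_re_herglotzRieszKernel]
  exact continuous_re.comp_continuousOn (continuousOn_herglotzRieszKernel_sphere hz)

lemma nice {z : ℂ} (hz : z ∈ ball (0 : ℂ) 1) (a : ℂ) (n : ℕ) : Nice fun ζ => a / (1 - conj z * ζ) ^ n := by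
  have z1 := mem_ball_zero_iff.1 hz
  have z0 := norm_nonneg z
  refine ⟨2 / (1 + ‖z‖), (one_lt_div (by positivity)).2 (by linarith), DifferentiableOn.div (by fun_prop)
    (by fun_prop) fun w hw => pow_ne_zero _ fun e => ?_⟩
  have := congrArg norm (sub_eq_zero.1 e)
  rw [norm_mul, norm_conj, norm_one] at this
  nlinarith [(lt_div_iff₀ (by positivity)).1 (mem_ball_zero_iff.1 hw), norm_nonneg w]

lemma add0 (hf : H1 f) {h g k : ℂ → ℂ} (hh : Nice h) (hg : ContinuousOn g (sphere 0 |1|))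
    (e : ∀ ζ ∈ sphere (0 : ℂ) |1|, k ζ = g ζ + ζ * h ζ) :
    circleAverage (fun ζ => k ζ * f ζ) 0 1 = circleAverage (fun ζ => g ζ * f ζ) 0 1 := by
  have := Real.circleAverage_fun_add (cml hf.1 hg) (cml hf.1
    (g := fun ζ => ζ * h ζ) fun ζ hζ => (continuousAt_id.mul (hh.at (sphere_subset_closedBall
      (abs_one (α := ℝ) ▸ hζ))).continuousAt).continuousWithinAt)
  rw [rep hf hh, add_zero] at this
  exact (Real.circleAverage_congr_sphere fun ζ hζ => by simp only [e ζ hζ, add_mul]).trans this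

lemma ext_c (hf : H1 f) : ContinuousOn (ext f) (ball 0 1) := by
  refine ((differentiableOn_circleAverage_herglotzRieszKernel_smul hf.1).continuousOn.add
    (continuousOn_const (c := circleAverage f 0 1))).div_const 2 |>.congr fun z hz => ?_
  have c := continuousOn_herglotzRieszKernel_sphere hz
  have := add0 hf (nice hz (2 * conj z) 1) (g := fun ζ => herglotzRieszKernel 0 z ζ + 1)
    (k := fun ζ => 2 * poissonKernel 0 z ζ) (c.add continuousOn_const) fun ζ hζ => by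
      obtain ⟨e1, e2, e3⟩ := nz hz hζ
      simp only [e3, herglotzRieszKernel, sub_zero]
      field_simp
      ring
  simp only [add_mul, one_mul, mul_assoc] at this
  simp only [← smul_eq_mul (2 : ℂ), Real.circleAverage_fun_smul] at this
  rw [Real.circleAverage_fun_add (cml hf.1 c) hf.1] at this
  rw [eq_div_iff two_ne_zero, mul_comm]
  exact this

lemma pk {τ a θ : ℝ} (t0 : 0 < τ) (t1 : τ ≤ 1) : poissonKernel 0 ((1 - τ : ℝ) * ex a) (ex θ) =
    τ * (2 - τ) / ‖ex θ - (1 - τ : ℝ) * ex a‖ ^ 2 := by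
  simp only [poissonKernel, sub_zero, ex_norm]
  rw [← sub_sub_self 1 ‖(1 - τ : ℝ) * ex a‖, (pt t0 t1 (ex_norm a)).1]
  ring

lemma K1 (hf : H1 f) {c : ℂ} {a h D τ : ℝ} (hg : Gr f c a h D) (t0 : 0 < τ) (t1 : τ ≤ 1) (t2 : h ≤ τ) :
    ‖ext f ((1 - τ : ℝ) * ex a) - c‖ ≤ 750 * D * τ := by
  obtain ⟨z1, hz⟩ := pt t0 t1 (ex_norm a)
  have gi : ∀ b e, IntervalIntegrable (fun θ => ‖f (ex θ) - c‖) volume b e := fun b e =>
    ((ii hf.1 b e).sub intervalIntegrable_const).norm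
  have k := ker gi (fun _ => norm_nonneg _) t0 le_rfl fun σ e => hg σ (t2.trans e)
  have D0 : 0 ≤ D := (mul_nonneg_iff_of_pos_right (pow_pos t0 2)).1
    ((intervalIntegral.integral_nonneg (by linarith) fun θ _ => norm_nonneg _).trans (hg τ t2))
  have b : ∀ θ ∈ Ioc (a - π) (a + π), ‖poissonKernel 0 ((1 - τ : ℝ) * ex a) (ex θ) * ((1 - (1 - τ : ℝ) * ex a *
      conj ((1 - τ : ℝ) * ex a)) / (1 - conj ((1 - τ : ℝ) * ex a) * ex θ)) * (f (ex θ) - c)‖ ≤
      500 * τ ^ 2 * (((τ + |θ - a|) * (τ + |θ - a|) ^ 2)⁻¹ * ‖f (ex θ) - c‖) := fun θ hθ => by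
    obtain ⟨e1, e2, -⟩ := den (a := a) (θ := θ) t0 t1
    have e3 := ex_low (a := θ) (b := a) (abs_le.2 ⟨by linarith [hθ.1], by linarith [hθ.2]⟩)
    have e4 : ‖1 - conj ((1 - τ : ℝ) * ex a) * ex θ‖ = ‖ex θ - (1 - τ : ℝ) * ex a‖ := by
      rw [← norm_conj (ex θ - _), ← one_mul ‖conj _‖, ← ex_norm θ, ← norm_mul, map_sub, mul_sub, mul_conj',
        ex_norm, mul_comm (ex θ)]
      simp
    rw [norm_mul, norm_mul, ← mul_assoc, pk t0 t1, norm_div, e4, mul_conj', ← ofReal_pow, ← ofReal_one,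
      ← ofReal_sub, norm_real, norm_real, ← sub_sub_self 1 ‖(1 - τ : ℝ) * ex a‖, z1,
      Real.norm_of_nonneg (div_nonneg (by nlinarith) (sq_nonneg _)), Real.norm_of_nonneg (by nlinarith)]
    refine mul_le_mul_of_nonneg_right ?_ (norm_nonneg _)
    have e5 : τ + |θ - a| ≤ 5 * ‖ex θ - (1 - τ : ℝ) * ex a‖ := by linarith
    have e6 := t0.trans_le e2
    generalize ‖ex θ - (1 - τ : ℝ) * ex a‖ = q at *
    rw [div_mul_div_comm, ← pow_succ, ← pow_succ', ← div_eq_mul_inv, div_le_div_iff₀ (by positivity)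
      (by positivity)]
    have e7 : τ * (2 - τ) ≤ 2 * τ := by nlinarith
    rw [show 1 - (1 - τ) ^ 2 = τ * (2 - τ) by ring]
    calc _ ≤ (2 * τ) * (2 * τ) * (5 * q) ^ (2 + 1) := by
          have : 0 ≤ τ * (2 - τ) := by nlinarith
          gcongr
      _ = _ := by ring
  generalize ((1 - τ : ℝ) * ex a : ℂ) = z at *
  have g : H1 fun ζ => f ζ - c := ⟨hf.1.sub (h1c c).1, fun n => by
    simp only [mul_sub]
    rw [Real.circleAverage_fun_sub (cml hf.1 (by fun_prop)) (cml (h1c c).1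
      (by fun_prop)), hf.2, (h1c c).2, sub_self]⟩
  have e := add0 g (nice hz (conj z * (1 - z * conj z)) 2) (g := fun ζ => poissonKernel 0 z ζ)
    (k := fun ζ => poissonKernel 0 z ζ * ((1 - z * conj z) / (1 - conj z * ζ)))
    (continuous_ofReal.comp_continuousOn (pc hz)) fun ζ hζ => by
      obtain ⟨e1, e2, e3⟩ := nz hz hζ
      simp only [e3]
      field_simp
      ring
  have e' : ext f z - c = circleAverage (fun ζ => poissonKernel 0 z ζ * (f ζ - c)) 0 1 := by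
    have q := continuous_ofReal.comp_continuousOn (pc hz)
    simp only [mul_sub]
    exact (congrArg _ (diffContOnCl_const.circleAverage_poissonKernel_smul hz).symm).trans
      (Real.circleAverage_fun_sub (cml hf.1 q) (cml (h1c c).1 q)).symm
  rw [e', ← e, cav _ a, norm_smul, Real.norm_of_nonneg (by positivity), inv_mul_le_iff₀ two_pi_pos]
  refine (intervalIntegral.norm_integral_le_of_norm_le (by linarith [pi_pos]) (Eventually.of_forall b)
    (((gi _ _).continuousOn_mul (Continuous.inv₀ (by fun_prop) fun θ => by positivity).continuousOn).const_mul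
      _)).trans ?_
  rw [intervalIntegral.integral_const_mul]
  refine (mul_le_mul_of_nonneg_left k (by positivity)).trans ?_
  rw [show 500 * τ ^ 2 * (9 * D / τ) = 2 * 3 * (750 * D * τ) by field_simp; ring]
  gcongr
  exact Real.pi_gt_three.le

structure BV (Ξ g : ℂ → ℂ) (M : ℝ) : Prop where
  d : DifferentiableOn ℂ Ξ (ball 0 1)
  b : ∀ z ∈ ball (0 : ℂ) 1, ‖Ξ z‖ ≤ M
  l : ∀ᵐ θ : ℝ, Tendsto (fun r : ℝ => Ξ (r * ex θ)) (𝓝[<] 1) (𝓝 (g (ex θ)))

variable {Ξ g : ℂ → ℂ} {M : ℝ}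

lemma ev : ∀ᶠ r : ℝ in 𝓝[<] 1, r ∈ Ioo (0 : ℝ) 1 := Ioo_mem_nhdsLT one_pos

lemma mb {r : ℝ} (hr : r ∈ Ioo (0 : ℝ) 1) {w : ℂ} (hw : w ∈ closedBall (0 : ℂ) 1) : r * w ∈ ball (0 : ℂ) 1 := by
  rw [mem_ball_zero_iff, norm_mul, norm_real, Real.norm_of_nonneg hr.1.le]
  nlinarith [mem_closedBall_zero_iff.1 hw, hr.1, hr.2]

lemma BV.c (h : BV Ξ g M) {r : ℝ} (hr : r ∈ Ioo (0 : ℝ) 1) : Continuous fun θ => Ξ (r * ex θ) :=
  h.d.continuousOn.comp_continuous (continuous_const.mul ex_cont) fun θ => mb hr (em θ)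

lemma BV.dct {𝕜 : Type} [RCLike 𝕜] (h : BV Ξ g M) {φ : ℝ → 𝕜} {ψ : ℂ → 𝕜} {a b : ℝ}
    (hφ : IntervalIntegrable φ volume a b) (hψ : Continuous ψ) :
    Tendsto (fun r : ℝ => ∫ θ in a..b, φ θ * ψ (Ξ (r * ex θ))) (𝓝[<] 1)
      (𝓝 (∫ θ in a..b, φ θ * ψ (g (ex θ)))) := by
  obtain ⟨N, hN⟩ := (isCompact_closedBall (0 : ℂ) M).exists_bound_of_continuousOn hψ.continuousOn
  exact intervalIntegral.tendsto_integral_filter_of_dominated_convergence (fun θ => ‖φ θ‖ * N)
    (ev.mono fun r hr => (intervalIntegrable_iff.1 (hφ.mul_continuousOn (hψ.comp (h.c hr)).continuousOn)).1)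
    (ev.mono fun r hr => Eventually.of_forall fun θ _ => norm_mul_le_of_le le_rfl
      (hN _ (mem_closedBall_zero_iff.2 (h.b _ (mb hr (em θ)))))) (hφ.norm.mul_const _)
    (h.l.mono fun θ e _ => ((hψ.tendsto _).comp e).const_mul _)

lemma BV.bd (h : BV Ξ g M) : ∀ᵐ θ : ℝ, ‖g (ex θ)‖ ≤ M :=
  h.l.mono fun θ e => le_of_tendsto e.norm (ev.mono fun r hr => h.b _ (mb hr (em θ)))

lemma BV.meas (h : BV Ξ g M) : AEStronglyMeasurable (fun θ => g (ex θ)) volume := by
  classical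
  refine aestronglyMeasurable_of_tendsto_ae (𝓝[<] (1 : ℝ)) (f := fun r θ => if r ∈ Ioo (0 : ℝ) 1 then
    Ξ (r * ex θ) else 0) (fun r => ?_) (h.l.mono fun θ e => e.congr' (ev.mono fun r hr => (if_pos hr).symm))
  split_ifs with e
  exacts [(h.c e).aestronglyMeasurable, aestronglyMeasurable_const]

lemma cint {E : Type} [NormedAddCommGroup E] {k : ℂ → E}
    (h : IntervalIntegrable (fun θ => k (ex θ)) volume 0 (2 * π)) : CircleIntegrable k 0 1 := by
  simpa only [CircleIntegrable, cm1] using h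

lemma cmul (hf : CircleIntegrable f 0 1) (h1 : AEStronglyMeasurable (fun θ => g (ex θ)) volume)
    (h2 : ∀ᵐ θ : ℝ, ‖g (ex θ)‖ ≤ M) : CircleIntegrable (f * g) 0 1 :=
  cint (intervalIntegrable_iff.2 ((intervalIntegrable_iff.1 (ii hf _ _)).mul_bdd h1.restrict
    (ae_restrict_of_ae h2)))

lemma BV.lim (h : BV Ξ g M) {φ : ℂ → ℂ} (hφ : CircleIntegrable φ 0 1) :
    Tendsto (fun r : ℝ => circleAverage (fun ζ => φ ζ * Ξ (r * ζ)) 0 1) (𝓝[<] 1)
      (𝓝 (circleAverage (fun ζ => φ ζ * g ζ) 0 1)) := by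
  simpa only [cav _ 0, id] using (h.dct (ii hφ (0 - π) (0 + π)) continuous_id).const_smul (2 * π)⁻¹

lemma BV.nice (h : BV Ξ g M) {r : ℝ} (hr : r ∈ Ioo (0 : ℝ) 1) (n : ℕ) : Nice fun ζ => ζ ^ n * Ξ (r * ζ) :=
  ⟨r⁻¹, one_lt_inv_iff₀.2 hr, DifferentiableOn.mul (by fun_prop) (h.d.comp (by fun_prop) fun w hw => by
    rw [mem_ball_zero_iff, norm_mul, norm_real, Real.norm_of_nonneg hr.1.le]
    exact (lt_inv_mul_iff₀ hr.1).1 ((mem_ball_zero_iff.1 hw).trans_eq (mul_one _).symm))⟩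

lemma BV.mul (h : BV Ξ g M) (hf : H1 f) : H1 (f * g) := ⟨cmul hf.1 h.meas h.bd, fun n => by
  have := h.lim (cml hf.1 (g := fun ζ => ζ ^ (n + 1)) (by fun_prop))
  simp only [Pi.mul_apply, mul_assoc] at this ⊢
  refine tendsto_nhds_unique this (tendsto_const_nhds.congr' (ev.mono fun r hr => ?_))
  exact (rep hf (h.nice hr n)).symm.trans (Real.circleAverage_congr_sphere fun ζ _ => by ring)⟩

lemma BV.h1 (h : BV Ξ g M) : H1 g := by simpa using h.mul (f := 1) (h1c 1)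

lemma BV.ext (h : BV Ξ g M) {z : ℂ} (hz : z ∈ ball (0 : ℂ) 1) : ext g z = Ξ z := by
  refine tendsto_nhds_unique (h.lim (φ := fun ζ => poissonKernel 0 z ζ)
    (continuous_ofReal.comp_continuousOn (pc hz)).circleIntegrable')
    (((h.d.continuousOn.continuousAt (isOpen_ball.mem_nhds hz)).tendsto.comp (radt z)).congr'
      (ev.mono fun r hr => ?_))
  exact (DiffContOnCl.circleAverage_poissonKernel_smul (f := fun ζ => Ξ (r * ζ)) (DifferentiableOn.diffContOnCl
    ((h.d.comp (by fun_prop) fun w hw => mb hr hw).mono closure_ball_subset_closedBall)) hz).symm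

end Pool.Agent.H.MP_2feb19_an
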