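import Pool.Agent.H.MP_2feb19_an.B

open Filter Topology Metric Set Complex ComplexConjugate MeasureTheory
open Real (circleAverage pi_pos two_pi_pos)
open scoped Real
open Pool.Agent.H.MP_5011cf_an Pool.Agent.H.MP_32de40_an Pool.Agent.H.MP_3bea3b_an

namespace Pool.Agent.H.MP_2feb19_an

noncomputable def Hg (R : ℝ) (g : ℂ → ℝ) (w : ℂ) : ℂ :=
  circleAverage (fun ζ => herglotzRieszKernel 0 w ζ • (g ζ : ℂ)) 0 R

variable {R : ℝ} {g : ℂ → ℝ} {w : ℂ}

lemma cof (hg : CircleIntegrable g 0 R) : CircleIntegrable (fun ζ => (g ζ : ℂ)) 0 R :=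
  ⟨hg.1.ofReal, hg.2.ofReal⟩

lemma Hg_d (hg : CircleIntegrable g 0 R) : DifferentiableOn ℂ (Hg R g) (ball 0 R) :=
  differentiableOn_circleAverage_herglotzRieszKernel_smul (cof hg)

lemma Hg_re (hg : CircleIntegrable g 0 R) (hw : w ∈ ball (0 : ℂ) R) :
    (Hg R g w).re = circleAverage (fun ζ => poissonKernel 0 w ζ * g ζ) 0 R := by
  rw [poissonKernel_eq_re_herglotzRieszKernel]
  exact re_circleAverage_herglotzRieszKernel_smul hg hw

lemma pi' (hg : CircleIntegrable g 0 R) (hw : w ∈ ball (0 : ℂ) R) :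
    CircleIntegrable (fun ζ => poissonKernel 0 w ζ * g ζ) 0 R := hg.continuousOn_mul (pc hw)

lemma sp {ζ : ℂ} (hw : w ∈ ball (0 : ℂ) R) (h : ζ ∈ sphere (0 : ℂ) |R|) : ‖ζ‖ = R :=
  (mem_sphere_zero_iff_norm.1 h).trans (abs_of_pos (pos_of_mem_ball hw))

lemma p0 {ζ : ℂ} (hw : w ∈ ball (0 : ℂ) R) (h : ζ ∈ sphere (0 : ℂ) |R|) : 0 ≤ poissonKernel 0 w ζ := by
  simp only [poissonKernel, sub_zero, sp hw h]
  exact div_nonneg (sub_nonneg.2 (pow_le_pow_left₀ (norm_nonneg _) (mem_ball_zero_iff.1 hw).le 2)) (sq_nonneg _)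

lemma Hg0 (hg : CircleIntegrable g 0 R) (g0 : ∀ ζ ∈ sphere (0 : ℂ) |R|, 0 ≤ g ζ) (hw : w ∈ ball (0 : ℂ) R) :
    0 ≤ (Hg R g w).re :=
  Hg_re hg hw ▸ Real.circleAverage_nonneg_of_nonneg fun ζ h => mul_nonneg (p0 hw h) (g0 ζ h)

lemma es (θ : ℝ) : ex θ ∈ sphere (0 : ℂ) |1| := by simp [ex_norm]

lemma PL (hg : CircleIntegrable g 0 1) (g0 : ∀ ζ ∈ sphere (0 : ℂ) |1|, 0 ≤ g ζ) {τ a b c : ℝ} (t0 : 0 < τ)
    (t1 : τ ≤ 1) (h1 : a - 3 * τ ≤ b) (h2 : b ≤ c) (h3 : c ≤ a + 3 * τ) :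
    ∫ θ in b..c, g (ex θ) ≤ 128 * τ * (Hg 1 g ((1 - τ : ℝ) * ex a)).re := by
  have hz := (pt t0 t1 (ex_norm a)).2
  have := Real.pi_gt_three
  have e1 := sub_le (ii (pi' hg hz)) (fun θ => mul_nonneg (p0 hz (es θ)) (g0 _ (es θ)))
    (show a - π ≤ b by linarith) h2 (show c ≤ a + π by linarith)
  have e2 := intervalIntegral.integral_mono_on h2 (ii hg b c) ((ii (pi' hg hz) b c).const_mul (16 * τ))
    fun θ hθ => by
      obtain ⟨-, e2, e3⟩ := den (a := a) (θ := θ) t0 t1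
      have e4 : |θ - a| ≤ 3 * τ := abs_le.2 ⟨by linarith [hθ.1], by linarith [hθ.2]⟩
      rw [← mul_assoc, pk t0 t1]
      refine le_mul_of_one_le_left (g0 _ (es θ)) ?_
      rw [← mul_div_assoc, one_le_div (pow_pos (t0.trans_le e2) 2)]
      nlinarith [pow_le_pow_left₀ (norm_nonneg _) (show _ ≤ 4 * τ by linarith only [e3, e4]) 2,
        mul_le_mul_of_nonneg_left t1 (sq_nonneg τ)]
  have e3 := Hg0 hg g0 hz
  rw [intervalIntegral.integral_const_mul] at e2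
  rw [Hg_re hg hz, cav _ a, smul_eq_mul] at e3 ⊢
  refine e2.trans ((mul_le_mul_of_nonneg_left e1 (by positivity)).trans ?_)
  generalize ∫ θ in a - π..a + π, poissonKernel 0 ((1 - τ : ℝ) * ex a) (ex θ) * g (ex θ) = X at *
  calc 16 * τ * X = 32 * π * τ * ((2 * π)⁻¹ * X) := by field_simp; ring
    _ ≤ _ := by gcongr; linarith [Real.pi_le_four]

lemma bfd {a : ℂ} (ha : ‖a‖ < 1) : DifferentiableOn ℂ (bf a) (ball 0 1) :=
  DifferentiableOn.div (by fun_prop) (by fun_prop) fun w hw => mne ha (mem_ball_zero_iff.1 hw).le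

lemma err {Θ b : ℂ → ℂ} (h : BV Θ b 1) (hb : ∀ᵐ θ : ℝ, ‖b (ex θ)‖ = 1) : ∃ G : ℝ → ℂ → ℂ,
    (∀ r ∈ Ioo (0 : ℝ) 1, DifferentiableOn ℂ (G r) (ball 0 1) ∧ (∀ w ∈ ball (0 : ℂ) 1, 0 ≤ (G r w).re) ∧
      ∀ w, ‖w‖ = r → 1 - ‖Θ w‖ ≤ (G r w).re) ∧
    ∀ z ∈ ball (0 : ℂ) 1, Tendsto (fun r => (G r z).re) (𝓝[<] 1) (𝓝 0) := by
  have i : ∀ r ∈ Ioo (0 : ℝ) 1, CircleIntegrable (fun ζ => 700 * (1 - ‖Θ (r * ζ)‖)) 0 1 := fun r hr =>
    cint (Continuous.intervalIntegrable (continuous_const.mul (continuous_const.sub (h.c hr).norm)) _ _)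
  refine ⟨fun r => Hg 1 fun ζ => 700 * (1 - ‖Θ (r * ζ)‖), fun r hr => ?_, fun z hz => ?_⟩
  · have g0 : ∀ ζ ∈ sphere (0 : ℂ) |1|, 0 ≤ 700 * (1 - ‖Θ (r * ζ)‖) := fun ζ hζ => by
      linarith [h.b _ (mb hr (sphere_subset_closedBall (abs_one (α := ℝ) ▸ hζ)))]
    refine ⟨Hg_d (i r hr), fun w => Hg0 (i r hr) g0, fun w hw => ?_⟩
    obtain ⟨a, -, e⟩ := polar w
    have t0 := sub_pos.2 hr.2
    have w1 : w ∈ ball (0 : ℂ) 1 := mem_ball_zero_iff.2 (hw ▸ hr.2)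
    rcases (h.b w w1).eq_or_lt with e1 | e1
    · simpa [e1] using Hg0 (i r hr) g0 w1
    have e2 := PL (i r hr) g0 t0 (by linarith [hr.1]) (a := a) (b := a - (1 - r) / 2) (c := a + (1 - r) / 2)
      (by linarith) (by linarith) (by linarith)
    rw [sub_sub_self, ← hw, ← e, hw] at e2
    have e3 := intervalIntegral.integral_mono_on (show a - (1 - r) / 2 ≤ a + (1 - r) / 2 by linarith)
      (intervalIntegrable_const (c := 128 * (1 - ‖Θ w‖))) (ii (i r hr) _ _) fun θ hθ => by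
        have m := mb hr (em θ)
        have s : ball w (1 - r) ⊆ ball 0 1 := ball_subset_ball' (by simp [hw])
        have q : ‖r * ex θ - w‖ ≤ (1 - r) / 2 := by
          rw [e, hw, ← mul_sub, norm_mul, norm_real, Real.norm_of_nonneg hr.1.le]
          exact (mul_le_of_le_one_left (norm_nonneg _) hr.2.le).trans ((ex_sub _ _).trans
            (abs_le.2 ⟨by linarith [hθ.1], by linarith [hθ.2]⟩))
        have q1 := dist_le_div_mul_dist_of_mapsTo_ball (f := fun y => bf (Θ w) (Θ y)) (R₂ := 1)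
          ((((h.d.sub_const _).div ((h.d.const_mul _).const_sub _) fun y hy => mne e1 (h.b y hy))).mono s)
          (fun y hy => by simpa [bf] using mle e1 (h.b y (s hy))) (mem_ball_iff_norm.2 (q.trans_lt
            (half_lt_self t0)))
        simp only [bf, sub_self, zero_div, dist_zero_right, dist_eq_norm, sub_zero] at q1
        have q2 := mid2 e1 (h.b _ m)
        have q3 := mge (Θ w) (h.b _ m)
        have q4 := q1.trans (mul_le_mul_of_nonneg_left q (by positivity))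
        rw [show 1 / (1 - r) * ((1 - r) / 2) = 1 / 2 by field_simp] at q4
        have q5 := pow_le_pow_left₀ (norm_nonneg _) q4 2
        have q6 := sub_pos.2 e1
        rw [eq_div_iff (pow_pos (q6.trans_le q3) 2).ne'] at q2
        have q7 := pow_le_pow_left₀ q6.le q3 2
        have q8 := h.b _ m
        have q9 : (1 - ‖Θ w‖ ^ 2) * (1 - ‖Θ (r * ex θ)‖ ^ 2) ≤ (2 * (1 - ‖Θ w‖)) * (2 * (1 - ‖Θ (r * ex θ)‖)) :=
          mul_le_mul (by nlinarith) (by nlinarith) (by nlinarith [norm_nonneg (Θ (r * ex θ))]) (by linarith)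
        have q10 := mul_le_mul (show 3 / 4 ≤ 1 - ‖(Θ (r * ex θ) - Θ w) / (1 - conj (Θ w) * Θ (r * ex θ))‖ ^ 2 by
          linarith only [q5]) q7 (by positivity) (by linarith only [q5])
        exact le_of_mul_le_mul_left (by nlinarith) q6
    rw [intervalIntegral.integral_const, smul_eq_mul] at e3
    exact le_of_mul_le_mul_left (by linarith) t0
  · have := (h.dct (ii (pc hz).circleIntegrable' (0 - π) (0 + π)) (ψ := fun y => 700 * (1 - ‖y‖))
      (by fun_prop)).const_smul (2 * π)⁻¹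
    rw [intervalIntegral.integral_congr_ae (g := fun _ => 0) (hb.mono fun θ e _ => by simp [e])] at this
    simp only [intervalIntegral.integral_zero, smul_zero] at this
    exact this.congr' (ev.mono fun r hr => by simp only [Hg_re (i r hr) hz, cav _ 0])

lemma divz {Θ : ℂ → ℂ} (hd : DifferentiableOn ℂ Θ (ball 0 1)) (h1 : ∀ z ∈ ball (0 : ℂ) 1, ‖Θ z‖ ≤ 1) {a : ℂ}
    (ha : ‖a‖ < 1) (h0 : Θ a = 0) : ∃ T, DifferentiableOn ℂ T (ball 0 1) ∧ ∀ z ∈ ball (0 : ℂ) 1,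
      ‖T z‖ ≤ 1 ∧ Θ z = bf a z * T z := by
  have na : ‖-a‖ < 1 := by rwa [norm_neg]
  have m : ∀ {a : ℂ}, ‖a‖ < 1 → MapsTo (bf a) (ball 0 1) (ball 0 1) := fun ha u hu =>
    mem_ball_zero_iff.2 (mlt ha (mem_ball_zero_iff.1 hu))
  have d := hd.comp (bfd na) (m na)
  have e0 : (Θ ∘ bf (-a)) 0 = 0 := by simpa [bf] using h0
  refine ⟨dslope (Θ ∘ bf (-a)) 0 ∘ bf a, ((differentiableOn_dslope (ball_mem_nhds 0 one_pos)).2 d).comp (bfd ha)
    (m ha), fun z hz => ⟨(norm_dslope_le_div_of_mapsTo_ball d (R₂ := 1) (fun u hu => by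
      rw [e0, mem_closedBall_zero_iff]; exact h1 _ (m na hu)) (m ha hz)).trans_eq (div_one 1), ?_⟩⟩
  have e := sub_smul_dslope (Θ ∘ bf (-a)) 0 (bf a z)
  rw [e0, sub_zero, sub_zero, smul_eq_mul] at e
  refine (congrArg Θ ?_).trans e.symm
  have := div_mul_cancel₀ (z - a) (mne ha (mem_ball_zero_iff.1 hz).le)
  rw [eq_comm, bf, div_eq_iff (mne na (mem_ball_zero_iff.1 (m ha hz)).le), map_neg, bf]
  linear_combination this

structure Fa (Θ Ψ Φ : ℂ → ℂ) (m R h : ℝ) (ζ z : ℂ) : Prop where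
  d : DifferentiableOn ℂ Ψ (ball 0 R)
  e : ∀ w ∈ ball (0 : ℂ) R, Θ w = Ψ w * Φ w ∧ ‖Ψ w‖ ≤ 1 ∧ ‖Φ w‖ ≤ 1 ∧ (104 * h ≤ ‖w - ζ‖ → ‖Ψ z‖ ≤ ‖Ψ w‖) ∧
    (‖w - ζ‖ ≤ 2 * h → ‖Φ w - Φ z‖ ≤ 30 * m)
  m : ‖Φ z‖ ≤ Real.exp (-m)

lemma ncav {F : ℂ → ℂ} {G : ℂ → ℝ} (hG : CircleIntegrable G 0 R) (h : ∀ ζ ∈ sphere (0 : ℂ) |R|, ‖F ζ‖ ≤ G ζ) :
    ‖circleAverage F 0 R‖ ≤ circleAverage G 0 R := by
  rw [circleAverage, circleAverage, norm_smul, Real.norm_of_nonneg (by positivity), smul_eq_mul]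
  exact mul_le_mul_of_nonneg_left (intervalIntegral.norm_integral_le_of_norm_le two_pi_pos.le
    (Eventually.of_forall fun θ _ => h _ (circleMap_mem_sphere' 0 R θ)) hG) (by positivity)

lemma fact0 {Θ : ℂ → ℂ} (hd : DifferentiableOn ℂ Θ (ball 0 1)) (h1 : ∀ z ∈ ball (0 : ℂ) 1, ‖Θ z‖ ≤ 1)
    {h : ℝ} {ζ z : ℂ} (h0 : 0 < h) (h2 : h ≤ 1 / 2) (R1 : R < 1) (R2 : 1 - R ≤ h / 2) (z1 : 1 - ‖z‖ = h)
    (z2 : ‖z - ζ‖ = h) (n : ∀ w ∈ closedBall (0 : ℂ) R, Θ w ≠ 0) : ∃ Ψ Φ m, Fa Θ Ψ Φ m R h ζ z := by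
  have R0 : 0 < R := by linarith
  have hz : z ∈ ball (0 : ℂ) R := mem_ball_zero_iff.2 (by linarith)
  have s : closedBall (0 : ℂ) R ⊆ ball 0 1 := closedBall_subset_ball R1
  have s' : sphere (0 : ℂ) |R| ⊆ closedBall 0 R := by rw [abs_of_pos R0]; exact sphere_subset_closedBall
  have u0 : ∀ y ∈ sphere (0 : ℂ) |R|, 0 ≤ -Real.log ‖Θ y‖ := fun y hy =>
    neg_nonneg.2 (Real.log_nonpos (norm_nonneg _) (h1 _ (s (s' hy))))
  have ui : CircleIntegrable (fun y => -Real.log ‖Θ y‖) 0 R := (((hd.continuousOn.mono (s'.trans s)).norm.log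
    fun y hy => norm_ne_zero_iff.2 (n y (s' hy))).neg).circleIntegrable'
  have ind : ∀ S : Set ℂ, MeasurableSet S → CircleIntegrable (S.indicator fun y => -Real.log ‖Θ y‖) 0 R ∧
      ∀ y ∈ sphere (0 : ℂ) |R|, 0 ≤ S.indicator (fun y => -Real.log ‖Θ y‖) y := fun S hS =>
    have := (continuous_circleMap 0 R).measurable hS
    ⟨⟨ui.1.indicator this, ui.2.indicator this⟩, fun y hy => indicator_apply_nonneg fun _ => u0 y hy⟩
  have mS : MeasurableSet {y : ℂ | 4 * h < ‖y - ζ‖} := (isOpen_lt continuous_const (by fun_prop)).measurableSet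
  obtain ⟨i1, i2⟩ := ind _ mS
  obtain ⟨i3, i4⟩ := ind _ mS.compl
  obtain ⟨g, hg⟩ : ∃ g, g = {y : ℂ | 4 * h < ‖y - ζ‖}.indicator fun y => -Real.log ‖Θ y‖ := ⟨_, rfl⟩
  obtain ⟨k, hk⟩ : ∃ g, g = {y : ℂ | 4 * h < ‖y - ζ‖}ᶜ.indicator fun y => -Real.log ‖Θ y‖ := ⟨_, rfl⟩
  have g1 : ∀ y, g y + k y = -Real.log ‖Θ y‖ := fun y => by rw [hg, hk, indicator_self_add_compl_apply]
  have g2 : ∀ y, ‖y - ζ‖ ≤ 4 * h → g y = 0 := fun y e => hg ▸ indicator_of_notMem (by simpa using e) _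
  have g3 : ∀ y, 4 * h < ‖y - ζ‖ → k y = 0 := fun y e => hk ▸ indicator_of_notMem (by simpa using e) _
  rw [← hg] at i1 i2
  rw [← hk] at i3 i4
  have e : ∀ w ∈ ball (0 : ℂ) R, ‖Θ w * exp (Hg R g w)‖ = Real.exp (-(Hg R k w).re) := fun w hw => by
    have := InnerProductSpace.HarmonicOnNhd.circleAverage_poissonKernel_smul (f := fun y => -Real.log ‖Θ y‖)
      (fun y hy => ((hd.analyticAt (isOpen_ball.mem_nhds (s hy))).harmonicAt_log_norm (n y hy)).neg) hw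
    rw [norm_mul, norm_exp, ← Real.exp_log (norm_pos_iff.2 (n w (ball_subset_closedBall hw))), ← Real.exp_add,
      ← neg_neg (Real.log _), ← this, Hg_re i1 hw, Hg_re i3 hw, neg_add_eq_sub,
      show poissonKernel 0 w • (fun y => -Real.log ‖Θ y‖) = fun y => poissonKernel 0 w y * g y +
        poissonKernel 0 w y * k y from funext fun y => by rw [← mul_add, g1]; rfl,
      Real.circleAverage_fun_add (pi' i1 hw) (pi' i3 hw), sub_add_cancel_left]
  have pz : ∀ y ∈ sphere (0 : ℂ) |R|, h / 2 / ‖y - z‖ ^ 2 ≤ poissonKernel 0 z y := fun y hy => by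
    simp only [poissonKernel, sub_zero, sp hz hy]
    exact div_le_div_of_nonneg_right (by nlinarith) (sq_nonneg _)
  have nz : ∀ w ∈ ball (0 : ℂ) R, ∀ y ∈ sphere (0 : ℂ) |R|, 0 < ‖y - w‖ := fun w hw y hy =>
    (sub_pos.2 (sp hw hy ▸ mem_ball_zero_iff.1 hw)).trans_le (norm_sub_norm_le y w)
  refine ⟨fun w => Θ w * exp (Hg R g w), fun w => exp (-Hg R g w), (Hg R g z).re,
    (hd.mono (ball_subset_ball R1.le)).mul (Hg_d i1).cexp, fun w hw => ⟨by
      rw [mul_assoc, ← exp_add]; simp, (e w hw).trans_le (Real.exp_le_one_iff.2 (neg_nonpos.2 (Hg0 i3 i4 hw))),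
      by simpa [norm_exp] using Hg0 i1 i2 hw, fun q => ?_, fun q => ?_⟩, by simp [norm_exp]⟩
  · rw [e w hw, e z hz, Real.exp_le_exp, neg_le_neg_iff, Hg_re i3 hw, Hg_re i3 hz]
    refine Real.circleAverage_mono (pi' i3 hw) (pi' i3 hz) fun y hy => ?_
    rcases lt_or_ge (4 * h) ‖y - ζ‖ with q1 | q1
    · simp [g3 y q1]
    refine mul_le_mul_of_nonneg_right (le_trans ?_ (pz y hy)) (i4 y hy)
    have q2 := norm_sub_le_norm_sub_add_norm_sub w y ζ
    have q3 := norm_sub_le_norm_sub_add_norm_sub y ζ z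
    have q4 := norm_sub_norm_le y w
    rw [norm_sub_rev w y] at q2
    rw [norm_sub_rev ζ, z2] at q3
    simp only [poissonKernel, sub_zero]
    rw [sp hw hy] at *
    have q5 := mem_ball_zero_iff.1 hw
    rw [div_le_div_iff₀ (pow_pos (nz w hw y hy) 2) (pow_pos (nz z hz y hy) 2)]
    calc _ ≤ (2 * ‖y - w‖) * (5 * h) ^ 2 := by
          gcongr
          · nlinarith [norm_nonneg w]
          · linarith
      _ ≤ _ := by
          nlinarith [mul_le_mul_of_nonneg_left (show 100 * h ≤ ‖y - w‖ by linarith)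
            (mul_pos h0 (nz w hw y hy)).le]
  · have c := (convex_halfSpace_re_le 0).norm_image_sub_le_of_norm_deriv_le (f := exp) (C := 1)
      (fun x _ => differentiableAt_exp) (fun x hx => by simpa [norm_exp] using hx)
      (show -Hg R g z ∈ _ by simpa using Hg0 i1 i2 hz) (show -Hg R g w ∈ _ by simpa using Hg0 i1 i2 hw)
    have j := fun w hw => (cof i1).continuousOn_smul (continuousOn_herglotzRieszKernel_sphere (w := w) hw)
    rw [one_mul, neg_sub_neg] at c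
    refine c.trans ?_
    rw [Hg_re i1 hz, ← smul_eq_mul, ← Real.circleAverage_fun_smul]
    refine (congrArg norm (Real.circleAverage_sub (j z hz) (j w hw)).symm).trans_le
      (ncav ((pi' i1 hz).const_smul (a := 30)) fun y hy => ?_)
    rcases lt_or_ge (4 * h) ‖y - ζ‖ with q1 | q1
    swap
    · simp [g2 y q1]
    have q2 := norm_sub_le_norm_sub_add_norm_sub y w ζ
    have q3 := norm_sub_le_norm_sub_add_norm_sub y ζ z
    have q4 := norm_sub_le_norm_sub_add_norm_sub z ζ w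
    rw [norm_sub_rev ζ, z2] at q3 q4
    have n1 := nz w hw y hy
    have n2 := nz z hz y hy
    simp only [Pi.sub_apply, Pi.mul_apply, smul_eq_mul, ← sub_mul, norm_mul, norm_real, ← mul_assoc,
      Real.norm_of_nonneg (i2 y hy), herglotzRieszKernel, sub_zero]
    refine mul_le_mul_of_nonneg_right (le_trans ?_ (mul_le_mul_of_nonneg_left (pz y hy)
      (show (0 : ℝ) ≤ 30 by norm_num))) (i2 y hy)
    rw [div_sub_div _ _ (norm_pos_iff.1 n2) (norm_pos_iff.1 n1), show (y + z) * (y - w) - (y - z) * (y + w) =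
      2 * y * (z - w) by ring, norm_div, norm_mul, norm_mul, norm_mul, sp hw hy, Complex.norm_two,
      ← mul_div_assoc, div_le_div_iff₀ (by positivity) (by positivity)]
    calc _ ≤ 2 * 1 * (3 * h) * (‖y - z‖ * (5 / 2 * ‖y - w‖)) := by
          rw [sq]
          gcongr <;> linarith
      _ = _ := by ring

lemma bst {a ζ z : ℂ} {h : ℝ} (ha : ‖a‖ < 1) (hζ : ‖ζ‖ = 1) (h0 : 0 < h) (z1 : 1 - ‖z‖ = h)
    (z2 : ‖z - ζ‖ = h) (hw : ‖w‖ < 1) :
    (‖a - ζ‖ ≤ 4 * h → 104 * h ≤ ‖w - ζ‖ → ‖bf a z‖ ≤ ‖bf a w‖) ∧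
    (4 * h < ‖a - ζ‖ → ‖w - ζ‖ ≤ 2 * h → ‖bf a w - bf a z‖ ≤ 30 * (1 - ‖bf a z‖)) := by
  have hz : ‖z‖ < 1 := by linarith
  have q : ∀ y, |‖1 - conj a * y‖ - ‖a - ζ‖| ≤ ‖y - ζ‖ := fun y => by
    have e : ‖a - ζ‖ = ‖1 - conj a * ζ‖ := by
      rw [← norm_conj (a - ζ), ← mul_one ‖conj _‖, ← hζ, ← norm_mul, map_sub, sub_mul, conj_mul', hζ,
        norm_sub_rev]
      simp
    rw [e]
    refine (abs_norm_sub_norm_le _ _).trans ?_
    rw [sub_sub_sub_cancel_left, ← mul_sub, norm_mul, norm_conj, norm_sub_rev]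
    exact mul_le_of_le_one_left (norm_nonneg _) ha.le
  have q1 := abs_le.1 (q w)
  have q2 := abs_le.1 (q z)
  have n1 := norm_pos_iff.2 (mne ha hw.le)
  have n2 := norm_pos_iff.2 (mne ha hz.le)
  have e1 := mid2 ha hw.le
  have e2 := mid2 ha hz.le
  have a0 : 0 ≤ 1 - ‖a‖ ^ 2 := by nlinarith [norm_nonneg a]
  have z3 : h ≤ 1 - ‖z‖ ^ 2 := by nlinarith [norm_nonneg z]
  refine ⟨fun b1 b2 => ?_, fun b1 b2 => ?_⟩
  · refine (pow_le_pow_iff_left₀ (norm_nonneg _) (norm_nonneg _) two_ne_zero).1 (sub_le_sub_iff_left 1 |>.1 ?_)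
    have b3 := norm_sub_norm_le ζ w
    rw [norm_sub_rev, hζ] at b3
    rw [bf, bf, e1, e2, mul_div_assoc, mul_div_assoc]
    refine mul_le_mul_of_nonneg_left ?_ a0
    have b4 := norm_sub_norm_le 1 (conj a * w)
    rw [norm_one, norm_mul, norm_conj] at b4
    replace b4 := (sub_le_sub_left (mul_le_of_le_one_left (norm_nonneg w) ha.le) 1).trans b4
    rw [div_le_div_iff₀ (by positivity) (by positivity)]
    have b5 : 100 * h ≤ ‖1 - conj a * w‖ := by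
      have := mle ha hw.le
      rw [norm_div, div_le_one n1] at this
      linarith [norm_sub_le_norm_sub_add_norm_sub w a ζ]
    calc _ ≤ (2 * ‖1 - conj a * w‖) * (5 * h) ^ 2 := by
          gcongr
          · nlinarith [norm_nonneg w]
          · linarith
      _ ≤ h * ‖1 - conj a * w‖ ^ 2 := by nlinarith [mul_le_mul_of_nonneg_left b5 (mul_pos h0 n1).le]
      _ ≤ _ := by gcongr
  · have b3 := norm_sub_le_norm_sub_add_norm_sub w ζ z
    rw [norm_sub_rev ζ, z2] at b3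
    have b4 := mle ha hz.le
    refine le_trans ?_ (show 15 * (1 - ‖bf a z‖ ^ 2) ≤ _ by
      rw [bf]; nlinarith [norm_nonneg ((z - a) / (1 - conj a * z))])
    rw [bf, bf, e2, div_sub_div _ _ (mne ha hw.le) (mne ha hz.le), show (w - a) * (1 - conj a * z) -
      (1 - conj a * w) * (z - a) = (1 - a * conj a) * (w - z) by ring, norm_div, norm_mul, norm_mul, mul_conj',
      ← ofReal_pow, ← ofReal_one, ← ofReal_sub, norm_real, Real.norm_of_nonneg a0, ofReal_one, ← mul_div_assoc,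
      div_le_div_iff₀ (by positivity) (by positivity)]
    calc _ ≤ (1 - ‖a‖ ^ 2) * (3 * h) * (‖1 - conj a * z‖ * (5 / 2 * ‖1 - conj a * w‖)) := by
          rw [sq ‖1 - conj a * z‖]
          gcongr <;> linarith
      _ = 15 * ((1 - ‖a‖ ^ 2) * (h / 2)) * (‖1 - conj a * w‖ * ‖1 - conj a * z‖) := by ring
      _ ≤ _ := by gcongr; linarith

lemma fact {Θ : ℂ → ℂ} (hd : DifferentiableOn ℂ Θ (ball 0 1)) (h1 : ∀ z ∈ ball (0 : ℂ) 1, ‖Θ z‖ ≤ 1)
    {h : ℝ} {ζ z : ℂ} (hζ : ‖ζ‖ = 1) (h0 : 0 < h) (h2 : h ≤ 1 / 2) (R1 : R < 1) (R2 : 1 - R ≤ h / 2)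
    (z1 : 1 - ‖z‖ = h) (z2 : ‖z - ζ‖ = h) (n : Θ z ≠ 0) : ∃ Ψ Φ m, Fa Θ Ψ Φ m R h ζ z := by
  have x0 : 0 < (1 - R) * h / 8 := by have := sub_pos.2 R1; positivity
  have x1 : (1 - R) * h / 8 ≤ 1 := by nlinarith
  have hz : ‖z‖ < 1 := by linarith
  have s : ball (0 : ℂ) R ⊆ ball 0 1 := ball_subset_ball R1.le
  have hz' : z ∈ ball (0 : ℂ) R := mem_ball_zero_iff.2 (by linarith)
  obtain ⟨N, hN⟩ := exists_pow_lt_of_lt_one (norm_pos_iff.2 n) (sub_lt_self 1 x0)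
  clear n
  induction N generalizing Θ with
  | zero => exact absurd (h1 z (mem_ball_zero_iff.2 hz)) (by simpa using hN)
  | succ N ih =>
  by_cases n : ∀ w ∈ closedBall (0 : ℂ) R, Θ w ≠ 0
  · exact fact0 hd h1 h0 h2 R1 R2 z1 z2 n
  push Not at n
  obtain ⟨a, a1, a2⟩ := n
  rw [mem_closedBall_zero_iff] at a1
  have ha := a1.trans_lt R1
  obtain ⟨T, t1, t2⟩ := divz hd h1 ha a2
  have b : ‖bf a z‖ ≤ 1 - (1 - R) * h / 8 := by
    refine (pow_le_pow_iff_left₀ (norm_nonneg _) (sub_nonneg.2 x1) two_ne_zero).1 ?_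
    have e := mid2 ha hz.le
    have e1 : ‖1 - conj a * z‖ ≤ 2 := by
      linarith [norm_sub_le 1 (conj a * z), norm_one (α := ℂ), norm_mul_le_of_le ((norm_conj a).trans_le ha.le)
        hz.le]
    have e2 : (1 - R) * h / 2 ^ 2 ≤ (1 - ‖a‖ ^ 2) * (1 - ‖z‖ ^ 2) / ‖1 - conj a * z‖ ^ 2 := by
      have := norm_pos_iff.2 (mne ha hz.le)
      have a0 : 1 - R ≤ 1 - ‖a‖ ^ 2 := by nlinarith [norm_nonneg a]
      have z3 : h ≤ 1 - ‖z‖ ^ 2 := by nlinarith [norm_nonneg z]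
      have : 0 ≤ (1 - ‖a‖ ^ 2) * (1 - ‖z‖ ^ 2) := mul_nonneg (by linarith) (by linarith)
      gcongr
      linarith
    rw [bf]
    nlinarith [sq_nonneg ((1 - R) * h / 8)]
  obtain ⟨Ψ, Φ, m, f⟩ := ih t1 (fun z hz => (t2 z hz).1) (lt_of_mul_lt_mul_left (by
    rw [← pow_succ']
    refine hN.trans_le ?_
    rw [(t2 z (s hz')).2, norm_mul]
    exact mul_le_mul_of_nonneg_right b (norm_nonneg _)) (sub_nonneg.2 x1))
  have b1 : ∀ w ∈ ball (0 : ℂ) R, ‖bf a w‖ ≤ 1 := fun w hw => mle ha (mem_ball_zero_iff.1 (s hw)).le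
  have b2 := fun w (hw : w ∈ ball (0 : ℂ) R) => bst ha hζ h0 z1 z2 (mem_ball_zero_iff.1 (s hw))
  rcases le_or_gt ‖a - ζ‖ (4 * h) with e | e
  · refine ⟨fun w => bf a w * Ψ w, Φ, m, ((bfd ha).mono s).mul f.d, fun w hw => ?_, f.m⟩
    obtain ⟨e1, e2, e3, e4, e5⟩ := f.e w hw
    refine ⟨by rw [(t2 w (s hw)).2, e1, mul_assoc], (norm_mul_le_of_le (b1 w hw) e2).trans_eq (mul_one 1), e3,
      fun q => ?_, e5⟩
    rw [norm_mul, norm_mul]
    exact mul_le_mul ((b2 w hw).1 e q) (e4 q) (norm_nonneg _) (norm_nonneg _)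
  · refine ⟨Ψ, fun w => bf a w * Φ w, m + (1 - ‖bf a z‖), f.d, fun w hw => ?_, ?_⟩
    · obtain ⟨e1, e2, e3, e4, e5⟩ := f.e w hw
      refine ⟨by rw [(t2 w (s hw)).2, e1, mul_left_comm], e2, (norm_mul_le_of_le (b1 w hw) e3).trans_eq
        (mul_one 1), e4, fun q => ?_⟩
      rw [show bf a w * Φ w - bf a z * Φ z = bf a z * (Φ w - Φ z) + (bf a w - bf a z) * Φ w by ring]
      linarith [norm_add_le (bf a z * (Φ w - Φ z)) ((bf a w - bf a z) * Φ w),
        norm_mul_le_of_le (b1 z hz') (e5 q), norm_mul_le_of_le ((b2 w hw).2 e q) e3]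
    · rw [neg_add, Real.exp_add, mul_comm (Real.exp _)]
      exact norm_mul_le_of_le (by linarith [Real.add_one_le_exp (-(1 - ‖bf a z‖))]) f.m

lemma lsq {Ψ : ℂ → ℂ} {r h a η : ℝ} (hd : DifferentiableOn ℂ Ψ (ball 0 R)) (h1 : ∀ w ∈ ball (0 : ℂ) R, ‖Ψ w‖ ≤ 1)
    (h0 : 0 < h) (h2 : h ≤ 1 / 2) (r1 : r < R) (R1 : R ≤ 1) (r2 : 1 - r ≤ h / 2) (η0 : 0 < η) :
    ∫ θ in a - h..a + h, ‖Ψ (r * ex θ) - Ψ ((1 - h : ℝ) * ex a)‖ ≤
      η * h + 144 * h / η * (1 - ‖Ψ ((1 - h : ℝ) * ex a)‖) := by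
  have z1 := (pt h0 (by linarith) (ex_norm a)).1
  have z2 := dst h0.le a
  generalize ((1 - h : ℝ) * ex a : ℂ) = z at *
  have r0 : 0 < r := by linarith
  have hz : z ∈ ball (0 : ℂ) r := mem_ball_zero_iff.2 (by linarith)
  have s : sphere (0 : ℂ) |r| ⊆ ball 0 R := by
    rw [abs_of_pos r0]; exact sphere_subset_closedBall.trans (closedBall_subset_ball r1)
  have c := hd.continuousOn.mono s
  have m : ∀ θ, (r * ex θ : ℂ) ∈ sphere (0 : ℂ) |r| := fun θ => by simp [ex_norm]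
  have c1 : ContinuousOn (fun y => 1 + ‖Ψ z‖ ^ 2 - 2 * (conj (Ψ z) * Ψ y).re) (sphere 0 |r|) := by fun_prop
  have e0 : ∀ y ∈ sphere (0 : ℂ) |r|, ‖Ψ y - Ψ z‖ ^ 2 ≤ 1 + ‖Ψ z‖ ^ 2 - 2 * (conj (Ψ z) * Ψ y).re := fun y hy => by
    have := pow_le_one₀ (n := 2) (norm_nonneg _) (h1 y (s hy))
    simp only [← normSq_eq_norm_sq, normSq_apply, sub_re, sub_im, mul_re, conj_re, conj_im] at *
    linarith
  have e := congrArg re (DiffContOnCl.circleAverage_poissonKernel_smul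
    (f := fun y => (1 + ‖Ψ z‖ ^ 2 : ℝ) - 2 * (conj (Ψ z) * Ψ y)) (DifferentiableOn.diffContOnCl
      ((((hd.const_mul _).const_mul _).const_sub _).mono (closure_ball_subset_closedBall.trans
        (closedBall_subset_ball r1)))) hz)
  rw [← reCLM_apply, ← reCLM.circleAverage_comp_comm (ContinuousOn.circleIntegrable' ((pc hz).smul
    (by fun_prop))), cavR _ _ a, conj_mul'] at e
  simp only [Function.comp, Pi.smul_apply', reCLM_apply, smul_re, smul_eq_mul, sub_re, ofReal_re,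
    show ∀ y : ℂ, (2 * y).re = 2 * y.re by simp, ← ofReal_pow] at e
  have i := iiR (pi' c1.circleIntegrable' hz)
  have e1 := sub_le i (fun θ => mul_nonneg (p0 hz (m θ)) ((sq_nonneg _).trans (e0 _ (m θ))))
    (show a - π ≤ a - h by linarith [Real.pi_gt_three]) (show a - h ≤ a + h by linarith)
    (show a + h ≤ a + π by linarith [Real.pi_gt_three])
  have e2 := intervalIntegral.integral_mono_on (show a - h ≤ a + h by linarith)
    (iiR (c.sub (continuousOn_const (c := Ψ z))).norm.circleIntegrable' _ _)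
    ((intervalIntegrable_const (c := η / 2)).add ((i _ _).const_mul (9 * h / η))) fun θ hθ => by
      have q1 : ‖r * ex θ - z‖ ≤ 3 * h := by
        have := dst (τ := 1 - r) (by linarith) θ
        rw [sub_sub_self] at this
        linarith [norm_sub_le_norm_sub_add_norm_sub (r * ex θ) (ex θ) z, ex_sub θ a, norm_sub_rev z (ex a),
          norm_sub_le_norm_sub_add_norm_sub (ex θ) (ex a) z, abs_le.2 (⟨by linarith [hθ.1],
            by linarith [hθ.2]⟩ : -h ≤ θ - a ∧ θ - a ≤ h)]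
      have q2 : 1 / (18 * h) ≤ poissonKernel 0 z (r * ex θ) := by
        have := (sub_pos.2 ((mem_ball_zero_iff.1 hz).trans_eq (sp hz (m θ)).symm)).trans_le
          (norm_sub_norm_le (r * ex θ) z)
        simp only [poissonKernel, sub_zero, sp hz (m θ)]
        rw [div_le_div_iff₀ (by positivity) (by positivity)]
        nlinarith [pow_le_pow_left₀ this.le q1 2, mul_le_mul_of_nonneg_left (show h / 2 ≤ r ^ 2 - ‖z‖ ^ 2 by
          nlinarith) h0.le]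
      refine le_trans ?_ (add_le_add le_rfl (mul_le_mul_of_nonneg_left (mul_le_mul q2 (e0 _ (m θ))
        (sq_nonneg _) (p0 hz (m θ))) (by positivity)))
      simp only [Pi.sub_apply]
      generalize ‖Ψ (r * ex θ) - Ψ z‖ = x
      rw [show 9 * h / η * (1 / (18 * h) * x ^ 2) = x ^ 2 / (2 * η) by field_simp; ring, ← sub_le_iff_le_add',
        le_div_iff₀ (by positivity)]
      nlinarith [sq_nonneg (x - η)]
  rw [intervalIntegral.integral_add intervalIntegrable_const ((i _ _).const_mul _),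
    intervalIntegral.integral_const, intervalIntegral.integral_const_mul, smul_eq_mul] at e2
  rw [inv_mul_eq_iff_eq_mul₀ two_pi_pos.ne'] at e
  have e3 := h1 z (ball_subset_ball r1.le hz)
  have e4 : 2 * π * (1 + ‖Ψ z‖ ^ 2 - 2 * ‖Ψ z‖ ^ 2) ≤ 16 * (1 - ‖Ψ z‖) :=
    (mul_le_mul (show 2 * π ≤ 8 by linarith [Real.pi_le_four]) (show _ ≤ 2 * (1 - ‖Ψ z‖) by nlinarith)
      (by nlinarith [norm_nonneg (Ψ z)]) (by norm_num)).trans_eq (by ring)
  refine e2.trans ((add_le_add le_rfl (mul_le_mul_of_nonneg_left ((e1.trans_eq e).trans e4)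
    (by positivity))).trans_eq (by ring))

end Pool.Agent.H.MP_2feb19_an
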