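import Pool.Agent.H.MP_2feb19_an.C

open Filter Topology Metric Set Complex ComplexConjugate MeasureTheory
open Real (circleAverage pi_pos two_pi_pos)
open scoped Real
open Pool.Agent.H.MP_5011cf_an Pool.Agent.H.MP_32de40_an Pool.Agent.H.MP_3bea3b_an

namespace Pool.Agent.H.MP_2feb19_an

structure Su (W : ℝ → ℝ) (D ε : ℝ) (f Θ b : ℂ → ℂ) : Prop where
  hW : Mo W
  D1 : 1 ≤ D
  ad : ∀ s t, 0 < s → s ≤ t → s * W t ≤ D * (t * W s)
  hf : H1 f
  gr : ∀ τ a, 0 < τ → τ ≤ 1 → Gr f (ext f ((1 - τ : ℝ) * ex a)) a τ (D * W τ / τ)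
  h2 : ∀ τ a, 0 < τ → τ ≤ 1 → ‖ext f ((1 - τ : ℝ) * ex a)‖ * τ ≤ D * W τ
  bv : BV Θ b 1
  b1 : ∀ᵐ θ : ℝ, ‖b (ex θ)‖ = 1
  e0 : 0 < ε
  e1 : ε < 1
  tw : ∀ w ∈ ball (0 : ℂ) 1, ‖Θ w‖ < ε → ‖ext f w‖ ≤ D * W (1 - ‖w‖)

lemma bar {ρ : ℝ} {y : ℂ} (r0 : 0 < ρ) (r1 : ρ ≤ 1) (hy : ‖y‖ ≤ 1) : 1 - (1 - ρ : ℝ) * y ≠ 0 ∧
    0 ≤ ((1 - y) / (1 - (1 - ρ : ℝ) * y)).re ∧ (‖1 - y‖ = ρ → 1 / 8 ≤ ((1 - y) / (1 - (1 - ρ : ℝ) * y)).re) := by
  have n := mne (a := (1 - ρ : ℝ)) (by rw [norm_real, Real.norm_of_nonneg (by linarith)]; linarith) hy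
  rw [conj_ofReal] at n
  have n1 := pow_pos (norm_pos_iff.2 n) 2
  have e : ‖1 - y‖ ^ 2 / 2 / ‖1 - (1 - ρ : ℝ) * y‖ ^ 2 ≤ ((1 - y) / (1 - (1 - ρ : ℝ) * y)).re := by
    rw [div_re, ← add_div, normSq_eq_norm_sq]
    refine div_le_div_of_nonneg_right ?_ n1.le
    have := pow_le_one₀ (n := 2) (norm_nonneg _) hy
    simp only [← normSq_eq_norm_sq, normSq_apply, sub_re, sub_im, one_re, one_im, re_ofReal_mul,
      im_ofReal_mul] at *
    nlinarith [mul_le_mul_of_nonneg_left this r0.le, mul_nonneg (sub_nonneg.2 r1)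
      (add_nonneg (mul_self_nonneg (1 - y.re)) (mul_self_nonneg y.im))]
  refine ⟨n, le_trans (by positivity) e, fun q => le_trans ?_ e⟩
  have := norm_add_le (1 - y) (ρ * y)
  rw [norm_mul, norm_real, Real.norm_of_nonneg r0.le, show 1 - y + ρ * y = 1 - (1 - ρ : ℝ) * y by
    push_cast; ring, q] at this
  rw [le_div_iff₀ n1, q]
  nlinarith [pow_le_pow_left₀ (norm_nonneg _) (this.trans (add_le_add le_rfl
    (mul_le_of_le_one_right r0.le hy))) 2]

variable {W : ℝ → ℝ} {D ε : ℝ} {f Θ b : ℂ → ℂ}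

lemma gin {f : ℂ → ℂ} (hf : CircleIntegrable f 0 1) (c : ℂ) (b e : ℝ) :
    IntervalIntegrable (fun θ => ‖f (ex θ) - c‖) volume b e := ((ii hf b e).sub intervalIntegrable_const).norm

lemma Su.hg (S : Su W D ε f Θ b) {h a l ρ : ℝ} (h0 : 0 < h) (h1 : h ≤ ρ) (h2 : ρ ≤ 1 / 10)
    (h3 : 40 * D ^ 2 * ρ ≤ l * h) : ∃ H : ℂ → ℂ, DifferentiableOn ℂ H (ball 0 1) ∧
      (H ((1 - h : ℝ) * ex a)).re ≤ 216 * D * W h / ρ ∧ ∀ w ∈ ball (0 : ℂ) 1, 0 ≤ (H w).re ∧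
        (‖w - ex a‖ ≤ ρ → l * W h / 2 ≤ ‖ext f w - ext f ((1 - h : ℝ) * ex a)‖ →
          (h + (1 - ‖w‖)) * (l * W h) ≤ 18432 * ρ ^ 2 * (H w).re) := by
  have r0 := h0.trans_le h1
  have W0 := S.hW.pos h h0
  have D0 := one_pos.trans_le S.D1
  have gr := S.gr h a h0 (by linarith)
  have hz := (pt h0 (by linarith) (ex_norm a)).2
  generalize ext f ((1 - h : ℝ) * ex a) = c at *
  have i : CircleIntegrable (fun ζ => (h + ‖ζ - ex a‖) / (ρ + ‖ζ - ex a‖) ^ 2 * ‖f ζ - c‖) 0 1 :=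
    cint ((gin S.hf.1 c _ _).continuousOn_mul (Continuous.div (by have := ex_cont; fun_prop)
      (by have := ex_cont; fun_prop) fun θ => by positivity).continuousOn)
  have g0 : ∀ ζ ∈ sphere (0 : ℂ) |1|, 0 ≤ (h + ‖ζ - ex a‖) / (ρ + ‖ζ - ex a‖) ^ 2 * ‖f ζ - c‖ :=
    fun ζ _ => by positivity
  refine ⟨_, Hg_d i, ?_, fun w hw => ⟨Hg0 i g0 hw, fun q1 q2 => ?_⟩⟩
  · have k := ker (gin S.hf.1 c) (fun _ => norm_nonneg _) h0 h1 gr
    have e := intervalIntegral.integral_mono_on (show a - π ≤ a + π by linarith [pi_pos]) (ii (pi' i hz) _ _)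
      (((gin S.hf.1 c _ _).continuousOn_mul (g := fun θ => ((h + |θ - a|) * (ρ + |θ - a|) ^ 2)⁻¹)
        (Continuous.inv₀ (by fun_prop) fun θ => by positivity).continuousOn).const_mul (144 * h)) fun θ hθ => by
        obtain ⟨e1, e2, -⟩ := den (a := a) (θ := θ) h0 (by linarith)
        have e3 := ex_low (a := θ) (b := a) (abs_le.2 ⟨by linarith [hθ.1], by linarith [hθ.2]⟩)
        rw [← mul_assoc, ← mul_assoc, pk h0 (by linarith)]
        refine mul_le_mul_of_nonneg_right ?_ (norm_nonneg _)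
        have e4 := h0.trans_le e2
        have e5 := norm_nonneg (ex θ - ex a)
        generalize ‖ex θ - (1 - h : ℝ) * ex a‖ = q at *
        generalize ‖ex θ - ex a‖ = s at *
        rw [div_mul_div_comm, ← div_eq_mul_inv, div_le_div_iff₀ (by positivity) (by positivity)]
        have e6 : h * (2 - h) ≤ 2 * h := by nlinarith
        calc _ ≤ 2 * h * (3 * q) * ((6 * q) * (2 * (ρ + s)) ^ 2) := by gcongr <;> linarith
          _ = _ := by ring
    rw [intervalIntegral.integral_const_mul] at e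
    rw [Hg_re i hz, cav _ a, smul_eq_mul, inv_mul_le_iff₀ two_pi_pos]
    refine e.trans ((mul_le_mul_of_nonneg_left k (by positivity)).trans ?_)
    rw [show 144 * h * (9 * (D * W h / h) / ρ) = 2 * 3 * (216 * D * W h / ρ) by field_simp; ring]
    gcongr
    exact Real.pi_gt_three.le
  obtain ⟨θ, θ1, e⟩ := pol w a
  obtain ⟨τ, hτ⟩ : ∃ τ, τ = 1 - ‖w‖ := ⟨_, rfl⟩
  have t0 : 0 < τ := hτ ▸ sub_pos.2 (mem_ball_zero_iff.1 hw)
  have t1 : τ ≤ ρ := by linarith [ex_ge a w, norm_sub_rev w (ex a)]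
  rw [show ‖w‖ = 1 - τ by linarith] at e
  rw [← hτ]
  have d1 : ‖ex θ - ex a‖ ≤ 2 * ρ := by
    have := dst t0.le θ
    rw [← e] at this
    linarith [norm_sub_le_norm_sub_add_norm_sub (ex θ) w (ex a), norm_sub_rev w (ex θ)]
  have d2 := abs_le.1 ((ex_low θ1).trans (mul_le_mul_of_nonneg_left d1 zero_le_two))
  obtain ⟨x, x1, x2, x3⟩ : ∃ x, θ - 3 * τ ≤ x ∧ x + 2 * τ ≤ θ + 3 * τ ∧ ∀ y ∈ Icc x (x + 2 * τ), τ ≤ |y - a| := by
    rcases le_total a θ with e | e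
    · exact ⟨θ + τ, by linarith, by linarith, fun y hy => le_abs.2 (Or.inl (by linarith [hy.1]))⟩
    · exact ⟨θ - 3 * τ, by linarith, by linarith, fun y hy => le_abs.2 (Or.inr (by linarith [hy.2]))⟩
  have p1 := PL i g0 t0 (by linarith) x1 (by linarith) x2
  have p2 := intervalIntegral.integral_mono_on (show x ≤ x + 2 * τ by linarith) ((gin S.hf.1 c _ _).const_mul
    ((h + τ) / 2 / (6 * ρ) ^ 2)) (ii i _ _) fun y hy => by
      have e1 : |y - θ| ≤ 3 * τ := abs_le.2 ⟨by linarith [hy.1], by linarith [hy.2]⟩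
      have e2 := ex_low (a := y) (b := a) (abs_le.2 ⟨by linarith [hy.1, Real.pi_gt_three],
        by linarith [hy.2, Real.pi_gt_three]⟩)
      have := x3 y hy
      gcongr
      · linarith
      · linarith [norm_sub_le_norm_sub_add_norm_sub (ex y) (ex θ) (ex a), ex_sub y θ]
  have p3 := (sub_le (gin S.hf.1 _) (fun _ => norm_nonneg _) x1 (by linarith) x2).trans
    (S.gr τ θ t0 (by linarith) (3 * τ) (by linarith))
  rw [← e] at p1 p3
  have p4 := intervalIntegral.integral_mono_on (show x ≤ x + 2 * τ by linarith)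
    (intervalIntegrable_const (c := l * W h / 2)) ((gin S.hf.1 (ext f w) _ _).add (gin S.hf.1 c _ _))
      fun y _ => q2.trans (norm_sub_rev (f (ex y)) (ext f w) ▸ norm_sub_le_norm_sub_add_norm_sub _ _ _)
  rw [intervalIntegral.integral_add (gin S.hf.1 _ _ _) (gin S.hf.1 _ _ _), intervalIntegral.integral_const,
    smul_eq_mul] at p4
  rw [intervalIntegral.integral_const_mul] at p2
  have p5 : D * W τ / τ * (3 * τ) ^ 2 ≤ τ * (l * W h) / 2 := by
    have := (mul_le_mul_of_nonneg_left (S.hW.mono τ ρ t0 t1) h0.le).trans (S.ad h ρ h0 h1)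
    rw [show D * W τ / τ * (3 * τ) ^ 2 = τ * (18 * D * W τ) / 2 by field_simp; ring]
    refine div_le_div_of_nonneg_right (mul_le_mul_of_nonneg_left (le_of_mul_le_mul_left ?_ h0) t0.le) zero_le_two
    linarith [mul_le_mul_of_nonneg_left this D0.le, mul_le_mul_of_nonneg_right h3 W0.le,
      show 0 ≤ D ^ 2 * ρ * W h by positivity]
  have p6 := (mul_le_mul_of_nonneg_left (show τ * (l * W h) / 2 ≤ _ by linarith) (by positivity)).trans
    (p2.trans p1)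
  rw [div_mul_eq_mul_div, div_le_iff₀ (by positivity)] at p6
  exact le_of_mul_le_mul_left (by linarith) t0

lemma Su.cmp (S : Su W D ε f Θ b) {G Ψ : ℂ → ℂ} {h a l ρ K T r R : ℝ} (h0 : 0 < h) (h1 : 2 * h ≤ ρ)
    (h2 : ρ ≤ 1 / 10) (h3 : 40 * D ^ 2 * ρ ≤ l * h) (h4 : l * W h ≤ ‖ext f ((1 - h : ℝ) * ex a)‖) (K0 : 0 ≤ K)
    (hK : ∀ w ∈ ball (0 : ℂ) 1, ∀ l', 2 * D ≤ l' → l' ≤ l → l' * W (1 - ‖w‖) ≤ ‖ext f w‖ →
      l' * -Real.log ‖Θ w‖ ≤ K) (r0 : 1 - h < r) (r1 : r < R) (R1 : R ≤ 1)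
    (hG : DifferentiableOn ℂ G (ball 0 1) ∧ (∀ w ∈ ball (0 : ℂ) 1, 0 ≤ (G w).re) ∧
      ∀ w, ‖w‖ = r → 1 - ‖Θ w‖ ≤ (G w).re) (hd : DifferentiableOn ℂ Ψ (ball 0 R))
    (hΨ : ∀ w ∈ ball (0 : ℂ) R, ‖Θ w‖ ≤ ‖Ψ w‖) (T0 : 0 ≤ T)
    (hT : ∀ w ∈ ball (0 : ℂ) R, ‖w - ex a‖ = ρ → ε ≤ ‖Θ w‖ → -Real.log ‖Ψ w‖ ≤ T) :
    -Real.log ‖Ψ ((1 - h : ℝ) * ex a)‖ ≤ 8000000 * D ^ 2 * K * ρ / (l ^ 2 * h) + 8 * T * (h / ρ) +
      (G ((1 - h : ℝ) * ex a)).re / ε := by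
  obtain ⟨H, Hd, H1, H2⟩ := S.hg (a := a) h0 (by linarith) h2 h3
  have p0 : 0 < ρ := by linarith
  have W0 := S.hW.pos h h0
  have D1 := S.D1
  have e0 := S.e0
  have l0 : 0 < l := pos_of_mul_pos_left (lt_of_lt_of_le (by positivity) h3) h0.le
  obtain ⟨z1, hz⟩ := pt h0 (by linarith) (ex_norm a)
  have z2 := dst h0.le a
  have z3 : conj (ex a) * ((1 - h : ℝ) * ex a) = (1 - h : ℝ) := by
    rw [mul_left_comm, conj_mul', ex_norm]; simp
  generalize ((1 - h : ℝ) * ex a : ℂ) = z at *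
  have s1 : closedBall (0 : ℂ) r ⊆ ball 0 R := closedBall_subset_ball r1
  have s2 : ball (0 : ℂ) R ⊆ ball 0 1 := ball_subset_ball R1
  have c : ContinuousOn (fun w => ‖ext f w - ext f z‖) (closedBall 0 r ∩ closedBall (ex a) ρ) :=
    (((ext_c S.hf).mono (inter_subset_left.trans (s1.trans s2))).sub continuousOn_const).norm
  have s3 : ball (0 : ℂ) r ∩ ball (ex a) ρ ⊆ closedBall 0 r ∩ closedBall (ex a) ρ :=
    inter_subset_inter ball_subset_closedBall ball_subset_closedBall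
  have o := (c.mono s3).isOpen_inter_preimage (isOpen_ball.inter isOpen_ball) (isOpen_Iio (a := l * W h / 2))
  have cl := closure_minimal (inter_subset_inter s3 (preimage_mono Iio_subset_Iic_self))
    (c.preimage_isClosed_of_isClosed (isClosed_closedBall.inter isClosed_closedBall)
      (isClosed_Iic (a := l * W h / 2)))
  have k : ∀ w ∈ closedBall (0 : ℂ) r, ‖w - ex a‖ ≤ ρ → ‖ext f w - ext f z‖ ≤ l * W h / 2 → ε ≤ ‖Θ w‖ ∧
      -Real.log ‖Θ w‖ ≤ 2 * D * K * (h + (1 - ‖w‖)) / (l * h) := fun w hw q1 q2 => by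
    have m := s2 (s1 hw)
    have k1 := hK w m (l * h / (2 * D * (h + (1 - ‖w‖))))
    have k2 := S.tw w m
    have t0 := sub_pos.2 (mem_ball_zero_iff.1 m)
    have t1 : 1 - ‖w‖ ≤ ρ := by linarith [ex_ge a w, norm_sub_rev w (ex a)]
    generalize 1 - ‖w‖ = τ at *
    have W1 := S.hW.pos τ t0
    have e1 : h * W τ ≤ D * ((h + τ) * W h) :=
      (mul_le_mul_of_nonneg_left (S.hW.mono τ _ t0 (by linarith)) h0.le).trans (S.ad h _ h0 (by linarith))
    have e2 : l * h / (2 * D * (h + τ)) * W τ ≤ ‖ext f w‖ := by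
      refine le_trans ?_ (show l * W h / 2 ≤ _ by
        linarith [norm_sub_norm_le (ext f z) (ext f w), norm_sub_rev (ext f z) (ext f w)])
      rw [div_mul_eq_mul_div, div_le_div_iff₀ (by positivity) two_pos]
      linarith [mul_le_mul_of_nonneg_left e1 l0.le]
    have e3 : 2 * D ≤ l * h / (2 * D * (h + τ)) := by
      rw [le_div_iff₀ (by positivity)]
      linarith [mul_le_mul_of_nonneg_left (show h + τ ≤ 10 * ρ by linarith) (sq_nonneg D)]
    refine ⟨not_lt.1 fun e => ?_, ?_⟩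
    · linarith [k2 e, mul_le_mul_of_nonneg_right e3 W1.le, show 0 < D * W τ by positivity]
    · have := k1 e3 (by
        rw [div_le_iff₀ (by positivity)]
        exact mul_le_mul_of_nonneg_left (by nlinarith) l0.le) e2
      rw [div_mul_eq_mul_div, div_le_iff₀ (by positivity)] at this
      rw [le_div_iff₀ (by positivity)]
      linarith
  have n : ∀ w, ‖conj (ex a) * w‖ = ‖w‖ := fun w => by rw [norm_mul, norm_conj, ex_norm, one_mul]
  have br := fun w (hw : w ∈ ball (0 : ℂ) 1) => bar p0 (by linarith) ((n w).trans_le (mem_ball_zero_iff.1 hw).le)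
  obtain ⟨κ, hκ⟩ : ∃ κ, κ = 36864 * D * K * ρ ^ 2 / (l ^ 2 * h * W h) := ⟨_, rfl⟩
  have κ0 : 0 ≤ κ := by rw [hκ]; positivity
  obtain ⟨U, hU⟩ : ∃ U : ℂ → ℂ, U = fun w => κ * H w + (8 * T : ℝ) * ((1 - conj (ex a) * w) /
    (1 - (1 - ρ : ℝ) * (conj (ex a) * w))) + (ε⁻¹ : ℝ) * G w := ⟨_, rfl⟩
  have U1 : ∀ w, (U w).re = κ * (H w).re + 8 * T * ((1 - conj (ex a) * w) /
      (1 - (1 - ρ : ℝ) * (conj (ex a) * w))).re + (G w).re / ε := fun w => by
    simp only [hU, add_re, re_ofReal_mul, inv_mul_eq_div]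
  have Ud : DifferentiableOn ℂ U (ball 0 1) := hU ▸ ((Hd.const_mul _).add ((DifferentiableOn.div (by fun_prop)
    (by fun_prop) fun w hw => (br w hw).1).const_mul _)).add (hG.1.const_mul _)
  have k0 : ∀ w ∈ closure _, 0 < ‖Ψ w‖ := fun w hw => (e0.trans_le (k w (cl hw).1.1 (mem_closedBall_iff_norm.1
    (cl hw).1.2) (cl hw).2).1).trans_le (hΨ w (s1 (cl hw).1.1))
  have eq : ∀ w, 0 < ‖Ψ w‖ → (‖exp (-U w) / Ψ w‖ ≤ 1 ↔ -Real.log ‖Ψ w‖ ≤ (U w).re) := fun w e => by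
    rw [norm_div, div_le_one e, norm_exp, neg_re, ← Real.le_log_iff_exp_le e, neg_le]
  have zm : z ∈ ball 0 r ∩ ball (ex a) ρ ∩ (fun w => ‖ext f w - ext f z‖) ⁻¹' Iio (l * W h / 2) :=
    ⟨⟨mem_ball_zero_iff.2 (by linarith), mem_ball_iff_norm.2 (by linarith)⟩, by simpa using mul_pos l0 W0⟩
  replace zm := subset_closure zm
  refine ((eq z (k0 z zm)).1 (norm_le_of_forall_mem_frontier_norm_le (f := fun w => exp (-U w) / Ψ w)
    ((isBounded_ball.subset inter_subset_left).subset inter_subset_left) (DifferentiableOn.diffContOnCl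
      ((Ud.neg.cexp.mono fun w hw => s2 (s1 (cl hw).1.1)).div (hd.mono fun w hw => s1 (cl hw).1.1)
        fun w hw => norm_pos_iff.1 (k0 w hw))) (fun w hw => ?_) zm)).trans ?_
  · rw [o.frontier_eq] at hw
    obtain ⟨⟨q1, q2⟩, q3⟩ := cl hw.1
    rw [mem_closedBall_iff_norm] at q2
    obtain ⟨k1, k2⟩ := k w q1 q2 q3
    have m := s2 (s1 q1)
    have a1 := mul_nonneg κ0 (H2 w m).1
    have a2 := mul_nonneg T0 (br w m).2.1
    have a3 := div_nonneg (hG.2.1 w m) e0.le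
    have a4 := Real.log_le_log (e0.trans_le k1) (hΨ w (s1 q1))
    rw [eq w (k0 w hw.1), U1]
    rcases (mem_closedBall_zero_iff.1 q1).eq_or_lt with e | e1
    · have := Real.one_sub_inv_le_log_of_pos (e0.trans_le k1)
      have : ‖Θ w‖⁻¹ - 1 ≤ (G w).re / ε := by
        rw [inv_eq_one_div, div_sub_one (e0.trans_le k1).ne']
        exact div_le_div₀ (hG.2.1 w m) (hG.2.2 w e) e0 k1
      linarith
    rcases q2.eq_or_lt with e | e2
    · have := mul_le_mul_of_nonneg_left ((br w m).2.2 (by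
        rw [← e, norm_sub_rev w, ← n (ex a - w), mul_sub, conj_mul', ex_norm]; simp)) T0
      linarith [hT w (s1 q1) e k1]
    have := mul_le_mul_of_nonneg_left ((H2 w m).2 q2 (not_lt.1 fun e => hw.2 ⟨⟨mem_ball_zero_iff.2 e1,
      mem_ball_iff_norm.2 e2⟩, e⟩)) (show 0 ≤ κ / (18432 * ρ ^ 2) by positivity)
    rw [← mul_assoc _ (18432 * _), div_mul_cancel₀ _ (by positivity), show κ / (18432 * ρ ^ 2) *
      ((h + (1 - ‖w‖)) * (l * W h)) = 2 * D * K * (h + (1 - ‖w‖)) / (l * h) by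
        rw [hκ]; field_simp; ring] at this
    linarith
  rw [U1, z3]
  refine add_le_add (add_le_add ((mul_le_mul_of_nonneg_left H1 κ0).trans ?_) (mul_le_mul_of_nonneg_left ?_
    (by positivity))) le_rfl
  · rw [show κ * (216 * D * W h / ρ) = 7962624 * D ^ 2 * K * ρ / (l ^ 2 * h) by rw [hκ]; field_simp; ring]
    gcongr
    norm_num
  · simp only [← ofReal_one, ← ofReal_mul, ← ofReal_sub, ← ofReal_div, ofReal_re, sub_sub_self]
    exact div_le_div_of_nonneg_left h0.le p0 (by nlinarith)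

end Pool.Agent.H.MP_2feb19_an
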