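import Pool.Agent.H.MP_2feb19_an.D

open Filter Topology Metric Set Complex ComplexConjugate MeasureTheory
open Real (circleAverage pi_pos two_pi_pos)
open scoped Real
open Pool.Agent.H.MP_5011cf_an Pool.Agent.H.MP_32de40_an Pool.Agent.H.MP_3bea3b_an

namespace Pool.Agent.H.MP_2feb19_an

variable {W : ℝ → ℝ} {D ε : ℝ} {f Θ b : ℂ → ℂ}

lemma Su.big (S : Su W D ε f Θ b) {w : ℂ} (hw : w ∈ ball (0 : ℂ) 1) {l : ℝ} (h1 : 2 * D ≤ l)
    (h2 : l * W (1 - ‖w‖) ≤ ‖ext f w‖) : ε ≤ ‖Θ w‖ := not_lt.1 fun e => by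
  have := S.hW.pos _ (sub_pos.2 (mem_ball_zero_iff.1 hw))
  nlinarith [S.tw w hw e, S.D1]

lemma Su.lh (S : Su W D ε f Θ b) {h a l : ℝ} (h0 : 0 < h) (h1 : h ≤ 1)
    (h2 : l * W h ≤ ‖ext f ((1 - h : ℝ) * ex a)‖) : l * h ≤ D :=
  le_of_mul_le_mul_right (by linarith [S.h2 h a h0 h1, mul_le_mul_of_nonneg_right h2 h0.le]) (S.hW.pos h h0)

lemma Su.kk (S : Su W D ε f Θ b) : ∃ K, 0 ≤ K ∧ ∀ w ∈ ball (0 : ℂ) 1, ∀ l, 2 * D ≤ l →
    l * W (1 - ‖w‖) ≤ ‖ext f w‖ → l * -Real.log ‖Θ w‖ ≤ K := by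
  obtain ⟨G, G1, G2⟩ := err S.bv S.b1
  have D1 := S.D1
  have e0 := S.e0
  obtain ⟨L, hL⟩ : ∃ L, L = -Real.log ε := ⟨_, rfl⟩
  have L0 : 0 ≤ L := hL ▸ neg_nonneg.2 (Real.log_nonpos e0.le S.e1.le)
  have u : ∀ w, ε ≤ ‖Θ w‖ → -Real.log ‖Θ w‖ ≤ L := fun w e => hL ▸ neg_le_neg (Real.log_le_log e0 e)
  obtain ⟨c, hc⟩ : ∃ c, c = 16000000 * D ^ 2 := ⟨_, rfl⟩
  have c0 : 0 < c := by rw [hc]; positivity
  refine ⟨16 * L * c, by positivity, fun w hw T T1 T2 => ?_⟩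
  have T0 : 0 < T := by linarith
  have k : ∀ n : ℕ, ∀ w ∈ ball (0 : ℂ) 1, ∀ l, 2 * D ≤ l → l ≤ T → l * W (1 - ‖w‖) ≤ ‖ext f w‖ →
      l * -Real.log ‖Θ w‖ ≤ T * L * (1 / 2) ^ n + 16 * L * c := fun n => by
    induction n with
    | zero =>
      intro w hw l l1 l2 l3
      linarith [mul_le_mul_of_nonneg_left (u w (S.big hw l1 l3)) (show 0 ≤ l by linarith),
        mul_le_mul_of_nonneg_right l2 L0, show 0 ≤ L * c by positivity, pow_zero (1 / 2 : ℝ),
        show T * L * (1 / 2) ^ 0 = T * L by simp]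
    | succ n ih =>
      intro w hw l l1 l2 l3
      have l0 : 0 < l := by linarith
      rcases le_or_gt l (2 * c) with e | e
      · refine le_add_of_nonneg_of_le (by positivity) ((mul_le_mul_of_nonneg_left (u w (S.big hw l1 l3))
          l0.le).trans ?_)
        nlinarith [mul_le_mul_of_nonneg_right e L0]
      obtain ⟨a, -, ea⟩ := polar w
      obtain ⟨h, hh⟩ : ∃ h, h = 1 - ‖w‖ := ⟨_, rfl⟩
      have h0 : 0 < h := hh ▸ sub_pos.2 (mem_ball_zero_iff.1 hw)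
      rw [show ‖w‖ = 1 - h by linarith] at ea
      rw [← hh, ea] at l3
      have h1 := S.lh h0 (by linarith [norm_nonneg w]) l3
      have := ge_of_tendsto (((G2 w hw).div_const ε).const_add _) ((ev.and (eventually_nhdsWithin_of_eventually_nhds
        (eventually_gt_nhds (sub_lt_self 1 h0)))).mono fun r ⟨r1, r2⟩ => ea ▸ S.cmp (ρ := l * h / c) h0
          ((le_div_iff₀ c0).2 (by nlinarith)) ((div_le_iff₀ c0).2 (by nlinarith)) (by
            rw [← mul_div_assoc, div_le_iff₀ c0, mul_comm]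
            exact mul_le_mul_of_nonneg_left (by nlinarith) (by positivity)) l3 (by positivity)
              (fun w hw l' q1 q2 => ih w hw l' q1 (q2.trans l2)) r2 r1.2 le_rfl (G1 r r1) S.bv.d
                (fun _ _ => le_rfl) L0 fun w _ _ => u w)
      refine (mul_le_mul_of_nonneg_left this l0.le).trans_eq ?_
      rw [show (8000000 : ℝ) * D ^ 2 = c / 2 by linarith]
      field_simp
      ring
  simpa using ge_of_tendsto' (((tendsto_pow_atTop_nhds_zero_of_lt_one one_half_pos.le one_half_lt_one).const_mul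
    (T * L)).add_const (16 * L * c)) fun n => k n w hw T T1 le_rfl T2

theorem Su.main (S : Su W D ε f Θ b) : ∃ E, 0 ≤ E ∧ ∀ h a, 0 < h → h ≤ 1 → ‖ext f ((1 - h : ℝ) * ex a)‖ *
    ∫ θ in a - h..a + h, ‖b (ex θ) - Θ ((1 - h : ℝ) * ex a)‖ ≤ E * (h * W h) := by
  obtain ⟨G, G1, G2⟩ := err S.bv S.b1
  obtain ⟨K, K0, hK⟩ := S.kk
  have D1 := S.D1
  have e0 := S.e0
  refine ⟨4 * (4160 * D ^ 2) + (1 + 288 * (8000000 * D ^ 2 * K * 104) + 60 * K), by positivity,
    fun h a h0 h1 => ?_⟩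
  have W0 := S.hW.pos h h0
  obtain ⟨z1, hz⟩ := pt h0 h1 (ex_norm a)
  obtain ⟨l, hl⟩ : ∃ l, ‖ext f ((1 - h : ℝ) * ex a)‖ = l * W h := ⟨_, (div_mul_cancel₀ _ W0.ne').symm⟩
  have t : Tendsto (fun r : ℝ => ∫ θ in a - h..a + h, ‖Θ (r * ex θ) - Θ ((1 - h : ℝ) * ex a)‖) (𝓝[<] 1)
      (𝓝 (∫ θ in a - h..a + h, ‖b (ex θ) - Θ ((1 - h : ℝ) * ex a)‖)) := by
    simpa using S.bv.dct (φ := fun _ => (1 : ℝ)) (ψ := fun y => ‖y - Θ ((1 - h : ℝ) * ex a)‖)
      intervalIntegrable_const (by fun_prop)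
  have i : ∀ r ∈ Ioo (0 : ℝ) 1, IntervalIntegrable (fun θ => ‖Θ (r * ex θ) - Θ ((1 - h : ℝ) * ex a)‖) volume
      (a - h) (a + h) := fun r hr => ((S.bv.c hr).sub continuous_const).norm.intervalIntegrable _ _
  rw [hl, add_mul]
  rcases le_or_gt l (4160 * D ^ 2) with e | e
  · refine le_add_of_le_of_nonneg ((mul_le_mul (mul_le_mul_of_nonneg_right e W0.le) (le_of_tendsto t
      (ev.mono fun r hr => ?_) : _ ≤ 4 * h) (intervalIntegral.integral_nonneg (by linarith)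
        fun _ _ => norm_nonneg _) (by positivity)).trans_eq (by ring)) (by positivity)
    refine (intervalIntegral.integral_mono_on (by linarith) (i r hr) (intervalIntegrable_const (c := 2))
      fun θ _ => ?_).trans_eq (by simp; ring)
    linarith [norm_sub_le (Θ (r * ex θ)) (Θ ((1 - h : ℝ) * ex a)), S.bv.b _ hz, S.bv.b _ (mb hr (em θ))]
  have l1 : 2 * D ≤ l := by nlinarith
  have l0 : 0 < l := by linarith
  have h2 := S.lh h0 h1 hl.ge
  have h3 : 104 * h ≤ 1 / 10 := by nlinarith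
  have b1 := e0.trans_le (S.big hz l1 (z1.symm ▸ hl.ge))
  have b2 := (le_div_iff₀' l0).2 (hK _ hz l l1 (z1.symm ▸ hl.ge))
  refine le_add_of_nonneg_of_le (by positivity) ((mul_le_mul_of_nonneg_left (le_of_tendsto_of_tendsto t
    ((((((G2 _ hz).div_const ε).const_add (8000000 * D ^ 2 * K * (104 * h) / (l ^ 2 * h))).const_mul
      (288 * h * l)).const_add (l⁻¹ * h)).add_const (60 * h * (K / l))) ((ev.and
        (eventually_nhdsWithin_of_eventually_nhds (eventually_gt_nhds (sub_lt_self 1 (half_pos h0))))).mono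
          fun r ⟨r1, r2⟩ => ?_)) (by positivity)).trans_eq (by field_simp; ring))
  have r3 : r < (1 + r) / 2 := by linarith [r1.2]
  have r4 : (1 + r) / 2 < 1 := by linarith [r1.2]
  obtain ⟨Ψ, Φ, m, F⟩ := fact S.bv.d S.bv.b (ex_norm a) h0 (by linarith) r4 (by linarith) z1 (dst h0.le a)
    (norm_pos_iff.1 b1)
  have hz' : ((1 - h : ℝ) * ex a : ℂ) ∈ ball (0 : ℂ) ((1 + r) / 2) := mem_ball_zero_iff.2 (by linarith)
  have c1 : ∀ w ∈ ball (0 : ℂ) ((1 + r) / 2), ‖Θ w‖ ≤ ‖Ψ w‖ := fun w hw => by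
    rw [(F.e w hw).1, norm_mul]; exact mul_le_of_le_one_right (norm_nonneg _) (F.e w hw).2.2.1
  have c2 := b1.trans_le (c1 _ hz')
  have c3 := S.cmp h0 (by linarith) h3 (by nlinarith) hl.ge K0 (fun w hw l' q _ => hK w hw l' q) (by linarith) r3
    r4.le (G1 r r1) F.d c1 (neg_nonneg.2 (Real.log_nonpos c2.le (F.e _ hz').2.1))
      fun w hw q _ => neg_le_neg (Real.log_le_log c2 ((F.e w hw).2.2.2.1 q.ge))
  have c4 := lsq (a := a) F.d (fun w hw => (F.e w hw).2.1) h0 (by linarith) r3 r4.le (by linarith) (inv_pos.2 l0)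
  have c5 : m ≤ K / l := by
    have := Real.log_le_log b1 (show _ ≤ Real.exp (-m) by
      rw [(F.e _ hz').1, norm_mul]; exact (mul_le_of_le_one_left (norm_nonneg _) (F.e _ hz').2.1).trans F.m)
    rw [Real.log_exp] at this
    linarith
  have c6 := Real.log_le_sub_one_of_pos c2
  have mr : ∀ θ, (r * ex θ : ℂ) ∈ ball (0 : ℂ) ((1 + r) / 2) := fun θ => by
    simpa [ex_norm, abs_of_pos r1.1] using r3
  have j : IntervalIntegrable (fun θ => ‖Ψ (r * ex θ) - Ψ ((1 - h : ℝ) * ex a)‖) volume (a - h) (a + h) :=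
    ((F.d.continuousOn.comp_continuous (continuous_const.mul ex_cont) mr).sub
      continuous_const).norm.intervalIntegrable _ _
  have c7 := intervalIntegral.integral_mono_on (show a - h ≤ a + h by linarith) (i r r1)
    (j.add (intervalIntegrable_const (c := 30 * m))) fun θ hθ => by
      have := dst (τ := 1 - r) (by linarith [r1.2]) θ
      rw [sub_sub_self] at this
      obtain ⟨e1, e2, e3, -, e4⟩ := F.e _ (mr θ)
      have e6 : |θ - a| ≤ h := abs_le.2 ⟨by linarith [hθ.1], by linarith [hθ.2]⟩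
      have e5 := e4 (by
        linarith [norm_sub_le_norm_sub_add_norm_sub (r * ex θ) (ex θ) (ex a), ex_sub θ a])
      rw [e1, (F.e _ hz').1, show ∀ x y u v : ℂ, x * y - u * v = (x - u) * y + u * (y - v) by intros; ring]
      linarith [norm_add_le ((Ψ (r * ex θ) - Ψ ((1 - h : ℝ) * ex a)) * Φ (r * ex θ)) (Ψ ((1 - h : ℝ) * ex a) *
        (Φ (r * ex θ) - Φ ((1 - h : ℝ) * ex a))), norm_mul_le_of_le (le_refl ‖Ψ (r * ex θ) -
          Ψ ((1 - h : ℝ) * ex a)‖) e3, norm_mul_le_of_le (F.e _ hz').2.1 e5]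
  rw [intervalIntegral.integral_add j intervalIntegrable_const, intervalIntegral.integral_const,
    smul_eq_mul] at c7
  rw [show h / (104 * h) = 1 / 104 by field_simp] at c3
  rw [div_inv_eq_mul] at c4
  have c8 := mul_le_mul_of_nonneg_left (show 1 - ‖Ψ ((1 - h : ℝ) * ex a)‖ ≤ 2 * (8000000 * D ^ 2 * K * (104 * h) /
    (l ^ 2 * h) + (G r ((1 - h : ℝ) * ex a)).re / ε) by linarith [(F.e _ hz').2.1])
      (show 0 ≤ 144 * h * l by positivity)
  beta_reduce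
  linarith [mul_le_mul_of_nonneg_left c5 h0.le]

end Pool.Agent.H.MP_2feb19_an
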