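import Pool.Agent.H.MP_2feb19_an.E

open Filter Topology Metric Set Complex ComplexConjugate MeasureTheory
open Real (circleAverage pi_pos two_pi_pos)
open scoped Real Interval
open Pool.Agent.H.MP_5011cf_an Pool.Agent.H.MP_32de40_an Pool.Agent.H.MP_3bea3b_an

namespace Pool.Agent.H.MP_2feb19_an

theorem cex2 {W : ℝ → ℝ} (hW : Mo W) (h0 : ∀ c, 0 < c → ∃ t, 0 < t ∧ W t < c) {c : ℝ} (c0 : 0 < c)
    (hc : ∀ t, 0 < t → t ≤ 1 → c * t ≤ W t) (k : ∀ C, ∃ s t, 0 < s ∧ s ≤ t ∧ t ≤ 1 ∧ C * (t * W s) < s * W t) :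
    ∃ Θ : ℂ → ℂ, DifferentiableOn ℂ Θ (ball 0 1) ∧ (∀ z ∈ ball (0 : ℂ) 1, ‖Θ z‖ ≤ 1) ∧ Rad Θ ∧
      Tw W (fun z => 1 - z) Θ (1 / 200) ∧ ∀ K : ℕ, ∃ (s t : ℝ) (ζ : ℂ), 0 < s ∧ s ≤ t ∧ t ≤ 1 / 20 ∧
        K * (t * W s) < s * W t ∧ ‖ζ‖ = 1 ∧ Θ ((1 - 5 * t : ℝ) * ζ) = 0 ∧
          W t / 2 * (1 / 6) ≤ ‖1 - (1 - 10 * t : ℝ) * ζ‖ * ‖Θ ((1 - 10 * t : ℝ) * ζ)‖ := by
  have k1 : ∀ K : ℝ, ∃ᶠ t in 𝓝[>] 0, ∃ s, 0 < s ∧ s ≤ t ∧ K * (t * W s) < s * W t := fun K e => by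
    obtain ⟨u, u0, hu⟩ := (nhdsGT_basis 0).eventually_iff.1 e
    obtain ⟨s, t, s0, s1, t1, e⟩ := k (max K (W 1 / (c * u)))
    have p := mul_pos (s0.trans_le s1) (hW.pos s s0)
    rcases lt_or_ge t u with e1 | e1
    · exact hu ⟨s0.trans_le s1, e1⟩ ⟨s, s0, s1, (mul_le_mul_of_nonneg_right (le_max_left _ _) p.le).trans_lt e⟩
    · have := (mul_le_mul_of_nonneg_right (le_max_right _ _) p.le).trans_lt e
      rw [div_mul_eq_mul_div, div_lt_iff₀ (by positivity)] at this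
      nlinarith [mul_le_mul (mul_le_mul (hW.mono t 1 (s0.trans_le s1) t1) e1 u0.le (hW.pos 1 one_pos).le)
        (hc s s0 (s1.trans t1)) (by positivity) (mul_pos (hW.pos 1 one_pos) (s0.trans_le s1)).le]
  obtain ⟨F, Θ, -, -, -, a1, a2, a3, S, Λ, a4, a5⟩ := glue hW (X := fun K _ S => ∃ s t ζ, 0 < s ∧ s ≤ t ∧
    t ≤ 1 / 20 ∧ K * (t * W s) < s * W t ∧ ‖ζ‖ = 1 ∧ ‖1 - ζ‖ ≤ 2 * W t ∧ W t ≤ ζ.im ∧ S.lo ≤ 5 * t ∧
      10 * t ≤ S.hi ∧ S.T = fun z => -bf (1 - 5 * t : ℝ) (conj ζ * z)) fun K η Λ η0 _ => by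
    obtain ⟨μ, hμ⟩ : ∃ μ : ℝ, μ = (1 / 2) ^ (K + 2) / 8 := ⟨_, rfl⟩
    have μ0 : 0 < μ := by rw [hμ]; positivity
    have μ1 : μ ≤ 1 / 8 := hμ ▸ div_le_div_of_nonneg_right (pow_le_one₀ (by norm_num) (by norm_num))
      (by norm_num)
    obtain ⟨t, ⟨s, s0, s1, e⟩, ⟨b1, b2⟩, t0, b3⟩ := ((k1 K).and_eventually (((sml hW h0 one_pos).and
      (sml hW h0 (c := η / 4) (by positivity))).and (Ioo_mem_nhdsGT (show 0 < μ * min 1 η / 5 by
        positivity)))).exists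
    have d0 := hW.pos t t0
    have b4 : 5 * t ≤ μ * η := by nlinarith [min_le_right 1 η]
    have b5 : 5 * t ≤ μ := by nlinarith [min_le_left 1 η]
    obtain ⟨ζ, z1, z2, z3⟩ : ∃ ζ : ℂ, ‖ζ‖ = 1 ∧ ‖1 - ζ‖ ≤ 2 * W t ∧ W t ≤ ζ.im := by
      refine ⟨⟨√(1 - W t ^ 2), W t⟩, ?_, ?_, le_rfl⟩
      · rw [norm_eq_sqrt_sq_add_sq, Real.sq_sqrt (by nlinarith)]; simp
      · refine (norm_le_abs_re_add_abs_im _).trans ?_
        have := Real.le_sqrt_of_sq_le (show (1 - W t) ^ 2 ≤ 1 - W t ^ 2 by nlinarith)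
        have := Real.sqrt_le_one.2 (show 1 - W t ^ 2 ≤ 1 by nlinarith)
        simp only [sub_re, one_re, sub_im, one_im, zero_sub, abs_neg]
        rw [abs_of_nonneg (by linarith), abs_of_pos d0]
        linarith
    have n : ∀ z, ‖conj ζ * z‖ = ‖z‖ := fun z => by rw [norm_mul, norm_conj, z1, one_mul]
    have m := fun z (hz : z ∈ closedBall (0 : ℂ) 1) => mob (t := 5 * t) (by positivity) (by linarith)
      ((n z).trans_le (mem_closedBall_zero_iff.1 hz))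
    refine ⟨⟨0, _, μ * (5 * t), 5 * t / μ, 0⟩, ⟨by positivity, (div_le_iff₀' μ0).2 b4, le_rfl, fun z hz => ?_,
      fun z hz => (norm_neg _).trans_le (m z hz).1, fun z hz => (norm_neg _).trans (bf1 ?_ ((n z).trans hz)),
      fun z hz e => ?_, fun z hz e => ?_, differentiableOn_const 0, by simpa using fun _ _ => η0.le,
      fun z hz => ?_⟩, s, t, ζ, s0, s1, by linarith, e, z1, z2, z3, mul_le_of_le_one_left (by positivity)
        (by linarith), (le_div_iff₀ μ0).2 (by nlinarith), rfl⟩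
    · obtain ⟨-, -, -, -, -, D, d, -⟩ := m z hz
      exact (d.differentiableAt.comp z (by fun_prop)).neg
    · rw [norm_real, Real.norm_of_nonneg (by linarith)]; linarith
    · have e1 : η / 2 ≤ ‖1 - conj ζ * z‖ := by
        have := norm_sub_le_norm_sub_add_norm_sub 1 ζ z
        rw [← n (ζ - z), mul_sub, mul_comm, mul_conj, normSq_eq_norm_sq, z1] at this
        simp only [one_pow, ofReal_one] at this
        linarith
      have e2 := (mul_le_mul_of_nonneg_left e1 (norm_nonneg _)).trans (m z hz).2.2.2.1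
      rw [← neg_add', norm_neg]
      refine le_of_mul_le_mul_right (e2.trans ?_) (half_pos η0)
      rw [hμ, pow_add] at b4
      linarith [show 0 < (1 / 2) ^ K * η by positivity]
    · have := (win μ0 (t := 5 * t) (by positivity) (by linarith) ((n z).trans_lt (mem_ball_zero_iff.1 hz))
        (n z ▸ e)).2
      rw [norm_neg]
      linarith
    · have := hW.pos _ (sub_pos.2 (mem_ball_zero_iff.1 hz))
      simp only [deriv_zero, Pi.zero_apply, norm_zero, mul_zero]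
      exact ⟨by positivity, fun _ => by positivity⟩
  refine ⟨Θ, a1, a2, a3, ⟨2 + 45 / c, by positivity, fun z hz e => ?_⟩, fun K => ?_⟩
  · obtain ⟨K, hK⟩ := a5 z hz (by linarith)
    obtain ⟨⟨s, t, ζ, s0, s1, t1, -, z1, z2, -, -, -, z3⟩, e1⟩ := a4 K
    have n : ∀ z, ‖conj ζ * z‖ = ‖z‖ := fun z => by rw [norm_mul, norm_conj, z1, one_mul]
    have e2 := (e1 z hz hK).2.1
    obtain ⟨-, b1, b2, -⟩ := mob (t := 5 * t) (by linarith) (by linarith)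
      ((n z).trans_lt (mem_ball_zero_iff.1 hz)).le
    simp only [z3, norm_neg] at e2
    have b3 : 9 / 10 ≤ 1 - ‖bf (1 - 5 * t : ℝ) (conj ζ * z)‖ ^ 2 := by
      nlinarith [norm_nonneg (bf (1 - 5 * t : ℝ) (conj ζ * z))]
    have b4 := norm_sub_le_norm_sub_add_norm_sub 1 ζ z
    rw [← n (ζ - z), mul_sub, mul_comm, mul_conj, normSq_eq_norm_sq, z1] at b4
    simp only [one_pow, ofReal_one] at b4
    have b5 := hW.mono t (1 - ‖z‖) (by linarith) (by rw [n] at b1; nlinarith)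
    have b6 : 45 * t ≤ 45 / c * W (1 - ‖z‖) := by
      rw [div_mul_eq_mul_div, le_div_iff₀ c0]; linarith [hc t (by linarith) (by linarith)]
    nlinarith [mul_le_mul_of_nonneg_right b3 (norm_nonneg (1 - conj ζ * z))]
  obtain ⟨⟨s, t, ζ, s0, s1, t1, e, z1, z2, z3, w1, w2, z4⟩, e1⟩ := a4 K
  have t0 := s0.trans_le s1
  obtain ⟨p1, p2⟩ := pt (t := 5 * t) (by linarith) (by linarith) z1
  obtain ⟨p3, p4⟩ := pt (t := 10 * t) (by linarith) (by linarith) z1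
  have q1 := (e1 _ p2 (p1.symm ▸ ⟨w1, by linarith⟩)).1
  have q2 := (e1 _ p4 (p3.symm ▸ ⟨by linarith, w2⟩)).2.1
  have q3 : ∀ x : ℂ, conj ζ * (x * ζ) = x := fun x => by
    rw [mul_left_comm, mul_comm _ ζ, mul_conj, normSq_eq_norm_sq, z1]; simp
  simp only [z4, q3, bf, sub_self, zero_div, norm_neg, norm_zero, conj_ofReal, ← ofReal_mul, ← ofReal_sub,
    ← ofReal_one, ← ofReal_div, norm_real] at q1 q2
  have q5 : W t / 2 ≤ ‖1 - (1 - 10 * t : ℝ) * ζ‖ := le_trans (by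
    simp only [sub_im, one_im, im_ofReal_mul, zero_sub, abs_neg]
    exact le_trans (by nlinarith [hW.pos t t0]) (le_abs_self _)) (abs_im_le_norm _)
  have q6 : 1 / 3 ≤ ‖(1 - 10 * t - (1 - 5 * t)) / (1 - (1 - 5 * t) * (1 - 10 * t))‖ := by
    rw [norm_div, Real.norm_of_nonpos (by linarith), Real.norm_of_nonneg (by nlinarith),
      le_div_iff₀ (by nlinarith)]
    nlinarith
  exact ⟨s, t, ζ, s0, s1, t1, e, z1, norm_le_zero_iff.1 q1, mul_le_mul q5 (by linarith) (by norm_num)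
    (norm_nonneg _)⟩

def BMO (ω : ℝ → ℝ) (f : ℂ → ℂ) : Prop :=
  CircleIntegrable f 0 1 ∧ ∃ C, ∀ a : ℝ, ∀ h ∈ Ioo (0 : ℝ) 1, ⨍ θ in a..a + 2 * π * h,
    ‖f (circleMap 0 1 θ) - ⨍ t in a..a + 2 * π * h, f (circleMap 0 1 t)‖ ≤ C * ω h

noncomputable def bv (Θ : ℂ → ℂ) (ζ : ℂ) : ℂ := limUnder (𝓝[<] 1) fun r : ℝ => Θ (r * ζ)

variable {ω : ℝ → ℝ} {f Θ b : ℂ → ℂ}

lemma rbv {M : ℝ} (hd : DifferentiableOn ℂ Θ (ball 0 1)) (h1 : ∀ z ∈ ball (0 : ℂ) 1, ‖Θ z‖ ≤ M) (h : Rad Θ) :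
    BV Θ (bv Θ) M ∧ ∀ᵐ θ : ℝ, ‖bv Θ (ex θ)‖ = 1 :=
  ⟨⟨hd, h1, h.mono fun _ ⟨_, _, e⟩ => by rwa [bv, e.limUnder_eq]⟩,
    h.mono fun _ ⟨_, e1, e⟩ => by rwa [bv, e.limUnder_eq]⟩

lemma tri (hf : CircleIntegrable f 0 1) (d d' : ℂ) {x y : ℝ} (h : x ≤ y) : ∫ θ in x..y, ‖f (ex θ) - d‖ ≤
    (∫ θ in x..y, ‖f (ex θ) - d'‖) + (y - x) * ‖d' - d‖ := by
  rw [← smul_eq_mul, ← intervalIntegral.integral_const, ← intervalIntegral.integral_add (gin hf _ _ _)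
    intervalIntegrable_const]
  exact intervalIntegral.integral_mono_on h (gin hf _ _ _) ((gin hf _ _ _).add intervalIntegrable_const)
    fun θ _ => norm_sub_le_norm_sub_add_norm_sub _ _ _

lemma frm (hm : MonotoneOn ω (Ioo 0 1)) (hp : ∀ t ∈ Ioo (0 : ℝ) 1, 0 < ω t) (h : BMO ω f) :
    ∃ D, 0 ≤ D ∧ ∀ s a, 0 < s → s ≤ 1 → ∃ c, Gr f c a s (D * ω (min s (1 / 2)) / s) := by
  obtain ⟨i, C, hC⟩ := h
  refine ⟨27 * (2 * |C|), by positivity, fun s a s0 s1 => ?_⟩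
  rw [mul_assoc]
  refine chain i s0 (fun x => ?_) a
  have p := Real.pi_gt_three
  have q : s / π ≤ min s (1 / 2) := le_min (div_le_self s0.le (by linarith)) ((div_le_iff₀ pi_pos).2 (by linarith))
  have m : s / π ∈ Ioo (0 : ℝ) 1 := ⟨by positivity, q.trans_lt (mm s0).2⟩
  have e := hC (x - s) _ m
  rw [show x - s + 2 * π * (s / π) = x + s by field_simp; ring, interval_average_eq, smul_eq_mul,
    inv_mul_le_iff₀ (by linarith)] at e
  simp only [cm1] at e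
  refine ⟨_, e.trans ?_⟩
  nlinarith [mul_le_mul_of_nonneg_left (mul_le_mul (le_abs_self C) (hm m (mm s0) q) (hp _ m).le
    (abs_nonneg C)) s0.le]

lemma tob (hm : MonotoneOn ω (Ioo 0 1)) (hp : ∀ t ∈ Ioo (0 : ℝ) 1, 0 < ω t) (hf : CircleIntegrable f 0 1)
    {E : ℝ} (E0 : 0 ≤ E) (h : ∀ a h, 0 < h → h ≤ 1 → ∃ c, ∫ θ in a - h..a + h, ‖f (ex θ) - c‖ ≤
      E * (h * ω (min (h / π) (1 / 2)))) : BMO ω f := by
  obtain ⟨N, hN⟩ : ∃ N, N = ∫ θ in 0..0 + 2 * π, ‖f (ex θ) - 0‖ := ⟨_, rfl⟩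
  have N0 : 0 ≤ N := hN ▸ intervalIntegral.integral_nonneg (by linarith [pi_pos]) fun _ _ => norm_nonneg _
  have w := hp (1 / 4) (by norm_num)
  refine ⟨hf, E + N / ω (1 / 4), fun a x hx => ?_⟩
  have x0 := mul_pos two_pi_pos hx.1
  have w1 := hp x hx
  have k : ∀ c, ∫ θ in a..a + 2 * π * x, ‖f (ex θ) - ⨍ t in a..a + 2 * π * x, f (ex t)‖ ≤
      2 * ∫ θ in a..a + 2 * π * x, ‖f (ex θ) - c‖ := fun c => by
    refine (tri hf _ c (by linarith)).trans ?_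
    have e := intervalIntegral.norm_integral_le_integral_norm (μ := volume) (f := fun θ => f (ex θ) - c)
      (show a ≤ a + 2 * π * x by linarith)
    rw [intervalIntegral.integral_sub (ii hf _ _) intervalIntegrable_const, intervalIntegral.integral_const,
      add_sub_cancel_left] at e
    rw [interval_average_eq, add_sub_cancel_left, norm_sub_rev, ← Real.norm_of_nonneg x0.le, ← norm_smul,
      Real.norm_of_nonneg x0.le, smul_sub, smul_inv_smul₀ x0.ne']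
    linarith
  simp only [cm1]
  rw [interval_average_eq, smul_eq_mul, add_sub_cancel_left, inv_mul_le_iff₀ x0]
  rcases le_or_gt (π * x) 1 with e | e
  · obtain ⟨c, hc⟩ := h (a + π * x) _ (mul_pos pi_pos hx.1) e
    rw [add_sub_cancel_right, show a + π * x + π * x = a + 2 * π * x by ring, mul_div_cancel_left₀ _ pi_pos.ne',
      min_eq_left (by nlinarith [Real.pi_gt_three, hx.1])] at hc
    nlinarith [k c, show 0 ≤ 2 * π * x * (N / ω (1 / 4) * ω x) by positivity]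
  · have e1 := (sub_le (gin hf 0) (fun _ => norm_nonneg _) le_rfl (show a ≤ a + 2 * π * x by linarith)
      (show _ ≤ a + 2 * π by nlinarith [hx.2, pi_pos])).trans_eq (by
        simpa [hN] using (per (fun ζ => ‖f ζ‖) 1).intervalIntegral_add_eq a 0 : _ = N)
    have e2 : N ≤ N / ω (1 / 4) * ω x := by
      rw [div_mul_eq_mul_div, le_div_iff₀ w]
      exact mul_le_mul_of_nonneg_left (hm (by norm_num) hx (by nlinarith [Real.pi_le_four, hx.1])) N0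
    nlinarith [k 0, show 0 ≤ 2 * π * x * (E * ω x) by positivity, mul_le_mul_of_nonneg_right e.le
      (N0.trans e2)]

lemma grx (hm : MonotoneOn ω (Ioo 0 1)) (hp : ∀ t ∈ Ioo (0 : ℝ) 1, 0 < ω t) (h : BMO ω f) (hf : H1 f) :
    ∃ D, 0 ≤ D ∧ ∀ τ a, 0 < τ → τ ≤ 1 → Gr f (ext f ((1 - τ : ℝ) * ex a)) a τ (D * ω (min τ (1 / 2)) / τ) := by
  obtain ⟨D, D0, hD⟩ := frm hm hp h
  refine ⟨1501 * D, by positivity, fun τ a t0 t1 σ hσ => ?_⟩
  obtain ⟨c, hc⟩ := hD τ a t0 t1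
  have e := K1 hf hc t0 t1 le_rfl
  have := hp _ (mm t0)
  rw [norm_sub_rev] at e
  rw [mul_assoc, mul_div_assoc]
  linarith [tri h.1 (ext f ((1 - τ : ℝ) * ex a)) c (show a - σ ≤ a + σ by linarith), hc σ hσ,
    mul_le_mul_of_nonneg_left e (t0.le.trans hσ), mul_le_mul_of_nonneg_left hσ
      (show 0 ≤ D * ω (min τ (1 / 2)) / τ * σ by have := t0.le.trans hσ; positivity)]

lemma low (h : BV Θ b 1) (hb : ∀ᵐ θ : ℝ, ‖b (ex θ)‖ = 1) {ε τ a : ℝ} (e1 : ε < 1) (e0 : 0 < ε) (t0 : 0 < τ)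
    (t1 : τ ≤ 1) (e : ‖Θ ((1 - τ : ℝ) * ex a)‖ < ε) (α c : ℂ) : (1 - ε) * ‖α‖ * τ ≤
      3002 * ∫ θ in a - 6000 / (1 - ε) * τ..a + 6000 / (1 - ε) * τ, ‖α * b (ex θ) - c‖ := by
  have e2 := sub_pos.2 e1
  obtain ⟨A, hA⟩ : ∃ A, A = 6000 / (1 - ε) := ⟨_, rfl⟩
  have A1 : 1 ≤ A := hA ▸ (one_le_div e2).2 (by linarith)
  have A2 : A * (1 - ε) = 6000 := hA ▸ div_mul_cancel₀ _ e2.ne'
  have h' : BV (fun z => α * Θ z) (fun z => α * b z) (‖α‖ * 1) := ⟨h.d.const_mul _, fun z hz =>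
    norm_mul_le_of_le le_rfl (h.b z hz), h.l.mono fun θ e => e.const_mul _⟩
  have i := gin h'.h1.1 c
  rw [← hA]
  obtain ⟨X, hX⟩ : ∃ X, X = ∫ θ in a - A * τ..a + A * τ, ‖α * b (ex θ) - c‖ := ⟨_, rfl⟩
  have s0 : 0 < A * τ := by positivity
  have X0 : 0 ≤ X := hX ▸ intervalIntegral.integral_nonneg (by linarith) fun _ _ => norm_nonneg _
  have e3 := intervalIntegral.integral_mono_ae (show a - A * τ ≤ a + A * τ by linarith)
    (intervalIntegrable_const (c := |‖α‖ - ‖c‖|)) (i _ _) (hb.mono fun θ e => by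
      simpa [e] using abs_norm_sub_norm_le (α * b (ex θ)) c)
  have e4 := K1 h'.h1 (c := c) (a := a) (D := X / τ ^ 2 + 2 * (‖α‖ + ‖c‖) / (A * τ)) (fun σ hσ => by
    have := t0.trans_le hσ
    rw [add_mul]
    rcases le_total σ (A * τ) with q | q
    · refine le_add_of_le_of_nonneg ((sub_le i (fun _ => norm_nonneg _) (by linarith) (by linarith)
        (by linarith)).trans (hX.ge.trans ?_)) (by positivity)
      rw [div_mul_eq_mul_div, le_div_iff₀ (by positivity)]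
      gcongr
    · refine le_add_of_nonneg_of_le (by positivity) ((intervalIntegral.integral_mono_ae (by linarith) (i _ _)
        (intervalIntegrable_const (c := ‖α‖ + ‖c‖)) (hb.mono fun θ e => by
          simpa [e] using norm_sub_le (α * b (ex θ)) c)).trans ?_)
      rw [intervalIntegral.integral_const, smul_eq_mul, div_mul_eq_mul_div, le_div_iff₀ s0]
      linarith [mul_le_mul_of_nonneg_left q (show 0 ≤ σ * (‖α‖ + ‖c‖) by positivity)]) t0 t1 le_rfl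
  rw [h'.ext (pt t0 t1 (ex_norm a)).2, norm_sub_rev] at e4
  rw [intervalIntegral.integral_const, smul_eq_mul, ← hX] at e3
  replace e4 := mul_le_mul_of_nonneg_right ((norm_sub_norm_le _ _).trans e4) s0.le
  rw [show 750 * (X / τ ^ 2 + 2 * (‖α‖ + ‖c‖) / (A * τ)) * τ * (A * τ) = 750 * A * X + 1500 * (‖α‖ + ‖c‖) * τ by
    field_simp; ring, norm_mul] at e4
  rw [← hX]
  have e5 := mul_le_mul_of_nonneg_left (le_abs_self (‖α‖ - ‖c‖)) s0.le
  have e6 := mul_le_mul_of_nonneg_left (neg_le_abs (‖α‖ - ‖c‖)) t0.le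
  have e7 := mul_le_mul_of_nonneg_right A1 (mul_nonneg t0.le (abs_nonneg (‖α‖ - ‖c‖)))
  have e8 := mul_le_mul_of_nonneg_left e.le (mul_nonneg (norm_nonneg α) s0.le)
  have e9 := mul_le_mul_of_nonneg_right A1 X0
  have e10 : A * ((1 - ε) * ‖α‖ * τ) = 6000 * (‖α‖ * τ) := by rw [← A2]; ring
  exact le_of_mul_le_mul_left (by linarith) (one_pos.trans_le A1)

end Pool.Agent.H.MP_2feb19_an
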