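import Pool.Agent.H.MP_2feb19_an.F

open Filter Topology Metric Set Complex ComplexConjugate MeasureTheory
open Real (circleAverage pi_pos two_pi_pos)
open scoped Real Interval
open Pool.Agent.H.MP_5011cf_an Pool.Agent.H.MP_32de40_an Pool.Agent.H.MP_3bea3b_an

namespace Pool.Agent.H.MP_2feb19_an

variable {ω : ℝ → ℝ} {f Θ b : ℂ → ℂ}

lemma pol1 {z : ℂ} (hz : z ∈ ball (0 : ℂ) 1) : ∃ τ a : ℝ, 0 < τ ∧ τ ≤ 1 ∧ z = (1 - τ : ℝ) * ex a ∧ 1 - ‖z‖ = τ :=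
  let ⟨a, _, e⟩ := polar z
  ⟨_, a, sub_pos.2 (mem_ball_zero_iff.1 hz), sub_le_self _ (norm_nonneg _), by rwa [sub_sub_self], rfl⟩

lemma Gr.mono {c : ℂ} {a h D D' : ℝ} (g : Gr f c a h D) (e : D ≤ D') : Gr f c a h D' := fun σ hσ =>
  (g σ hσ).trans (mul_le_mul_of_nonneg_right e (sq_nonneg _))

theorem dA (hm : MonotoneOn ω (Ioo 0 1)) (hp : ∀ t ∈ Ioo (0 : ℝ) 1, 0 < ω t) (hf : BMO ω f) (h1 : H1 f)
    (h : BV Θ b 1) (hb : ∀ᵐ θ : ℝ, ‖b (ex θ)‖ = 1) (σ : ℂ →+* ℂ) (s1 : ∀ z, ‖σ z‖ = ‖z‖)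
    (s2 : ∀ z, σ (σ z) = z) (hg : BMO ω fun ζ => f ζ * σ (b ζ)) {ε : ℝ} (e0 : 0 < ε) (e1 : ε < 1) :
    Tw (fun t => ω (min t (1 / 2))) (ext f) Θ ε := by
  obtain ⟨D, D0, hD⟩ := grx hm hp hf h1
  obtain ⟨E, E0, hE⟩ := frm hm hp hg
  have e2 := sub_pos.2 e1
  refine ⟨3002 * (D + E) * (6000 / (1 - ε)) ^ 2 / (1 - ε), by positivity, fun z hz e => ?_⟩
  obtain ⟨τ, a, t0, t1, rfl, t2⟩ := pol1 hz
  obtain ⟨c, hc⟩ := hE τ a t0 t1
  have q := low h hb e1 e0 t0 t1 e (σ (ext f ((1 - τ : ℝ) * ex a))) (σ c)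
  have A1 : 1 ≤ 6000 / (1 - ε) := (one_le_div e2).2 (by linarith)
  have q1 := hD τ a t0 t1 _ (le_mul_of_one_le_left t0.le A1)
  have q2 := hc _ (le_mul_of_one_le_left t0.le A1)
  generalize 6000 / (1 - ε) = A at *
  generalize ext f ((1 - τ : ℝ) * ex a) = α at *
  have i := gin ((h1c (σ α)).1 |> fun k => cmul k h.meas h.bd) (σ c)
  have q3 := intervalIntegral.integral_mono_ae (show a - A * τ ≤ a + A * τ by nlinarith) (i _ _)
    ((gin hf.1 α _ _).add (gin hg.1 c _ _)) (hb.mono fun θ e => by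
      have := norm_sub_le_norm_sub_add_norm_sub (α * σ (b (ex θ))) (f (ex θ) * σ (b (ex θ))) c
      rw [← sub_mul, norm_mul, s1, e, mul_one, norm_sub_rev α, ← s1, map_sub, map_mul, s2] at this
      exact this)
  rw [intervalIntegral.integral_add (gin hf.1 _ _ _) (gin hg.1 _ _ _)] at q3
  rw [s1] at q
  rw [t2, div_mul_eq_mul_div, le_div_iff₀ e2]
  rw [mul_comm (1 - ε)] at q
  refine le_of_mul_le_mul_right (q.trans ((mul_le_mul_of_nonneg_left (q3.trans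
    (add_le_add q1 q2)) (by norm_num)).trans_eq ?_)) t0
  field_simp

theorem dB (hm : MonotoneOn ω (Ioo 0 1)) (hp : ∀ t ∈ Ioo (0 : ℝ) 1, 0 < ω t) {C : ℝ}
    (ad : ∀ s t, 0 < s → s ≤ t → s * ω (min t (1 / 2)) ≤ C * (t * ω (min s (1 / 2)))) (hf : BMO ω f) (h1 : H1 f)
    (h : BV Θ b 1) (hb : ∀ᵐ θ : ℝ, ‖b (ex θ)‖ = 1) (σ : ℂ →+* ℂ) (s1 : ∀ z, ‖σ z‖ = ‖z‖)
    (s2 : Continuous σ) {ε : ℝ} (e0 : 0 < ε) (e1 : ε < 1) (hT : Tw (fun t => ω (min t (1 / 2))) (ext f) Θ ε) :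
    BMO ω fun ζ => f ζ * σ (b ζ) := by
  have hW := mo hm hp
  obtain ⟨W, w⟩ : ∃ W : ℝ → ℝ, ∀ t, ω (min t (1 / 2)) = W t := ⟨_, fun _ => rfl⟩
  obtain ⟨D, D0, hD⟩ := grx hm hp hf h1
  obtain ⟨T, T0, hT⟩ := hT
  have i : CircleIntegrable (fun ζ => f ζ * σ (b ζ)) 0 1 := cmul (g := fun ζ => σ (b ζ)) hf.1
    (s2.comp_aestronglyMeasurable h.meas) (hb.mono fun θ e => ((s1 _).trans e).le)
  have tb := fun E E0 => tob hm hp i (E := E) E0
  simp only [w] at hW hD hT ad tb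
  have W1 := hW.pos 1 one_pos
  have C0 : 0 ≤ C := by nlinarith [ad 1 1 one_pos le_rfl]
  obtain ⟨N, hN⟩ : ∃ N, N = ∫ θ in 0..0 + 2 * π, ‖f (ex θ) - 0‖ := ⟨_, rfl⟩
  have N0 : 0 ≤ N := hN ▸ intervalIntegral.integral_nonneg (by linarith [pi_pos]) fun _ _ => norm_nonneg _
  have N1 : 0 ≤ N * C / W 1 := by positivity
  have h2 : ∀ τ a, 0 < τ → τ ≤ 1 → ‖ext f ((1 - τ : ℝ) * ex a)‖ * τ ≤ (16 * D + N * C / W 1) * W τ := by
    intro τ a t0 t1
    have q1 := hD τ a t0 t1 π (by linarith [Real.pi_gt_three])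
    have q2 := intervalIntegral.integral_mono_on (show a - π ≤ a + π by linarith [pi_pos])
      (intervalIntegrable_const (c := ‖ext f ((1 - τ : ℝ) * ex a)‖)) ((gin hf.1 0 _ _).add
        (gin hf.1 (ext f ((1 - τ : ℝ) * ex a)) _ _)) fun θ _ => by
          simpa using norm_le_norm_add_norm_sub (f (ex θ)) (ext f ((1 - τ : ℝ) * ex a))
    have q3 := (per (fun ζ => ‖f ζ - 0‖) 1).intervalIntegral_add_eq (a - π) 0
    simp only [ofReal_one, one_mul, ← hN, show a - π + 2 * π = a + π by ring] at q3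
    rw [intervalIntegral.integral_add (gin hf.1 _ _ _) (gin hf.1 _ _ _), intervalIntegral.integral_const,
      smul_eq_mul, q3] at q2
    have q4 : N * τ ≤ N * C / W 1 * W τ := by
      rw [div_mul_eq_mul_div, le_div_iff₀ W1]
      linarith [mul_le_mul_of_nonneg_left (ad τ 1 t0 t1) N0]
    have q5 : D * W τ / τ * π ^ 2 * τ ≤ 16 * D * W τ := by
      have := hW.pos τ t0
      rw [show D * W τ / τ * π ^ 2 * τ = π ^ 2 * D * W τ by field_simp]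
      gcongr
      nlinarith [Real.pi_le_four, pi_pos]
    nlinarith [mul_le_mul_of_nonneg_right (q2.trans (add_le_add le_rfl q1)) t0.le, Real.pi_gt_three,
      mul_nonneg (norm_nonneg (ext f ((1 - τ : ℝ) * ex a))) t0.le]
  obtain ⟨D', d⟩ : ∃ D', D' = 1 + C + 16 * D + N * C / W 1 + T := ⟨_, rfl⟩
  have m : ∀ {x y t}, 0 < t → x ≤ y → x * W t ≤ y * W t := fun t0 e =>
    mul_le_mul_of_nonneg_right e (hW.pos _ t0).le
  obtain ⟨E, E0, hE⟩ := Su.main (W := W) (D := D') ⟨hW, by linarith, fun s t s0 e => (ad s t s0 e).trans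
    (mul_le_mul_of_nonneg_right (by linarith) (mul_pos (s0.trans_le e) (hW.pos s s0)).le), h1,
    fun τ a t0 t1 => (hD τ a t0 t1).mono (div_le_div_of_nonneg_right (m t0 (by linarith)) t0.le),
    fun τ a t0 t1 => le_trans (h2 τ a t0 t1) (m t0 (show 16 * D + N * C / W 1 ≤ D' by linarith)), h, hb, e0, e1,
    fun z hz e => (hT z hz e).trans (m (sub_pos.2 (mem_ball_zero_iff.1 hz)) (by linarith))⟩
  refine tb ((D + E) * (C * π)) (by positivity) fun a τ t0 t1 => ⟨ext f ((1 - τ : ℝ) * ex a) *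
    σ (Θ ((1 - τ : ℝ) * ex a)), ?_⟩
  have q1 := hD τ a t0 t1 τ le_rfl
  have q2 := hE τ a t0 t1
  generalize ext f ((1 - τ : ℝ) * ex a) = α at *
  generalize Θ ((1 - τ : ℝ) * ex a) = κ at *
  have q3 := intervalIntegral.integral_mono_ae (show a - τ ≤ a + τ by linarith) (gin i (α * σ κ) _ _)
    ((gin hf.1 α _ _).add ((gin h.h1.1 κ _ _).const_mul ‖α‖)) (hb.mono fun θ e => by
      have := norm_sub_le_norm_sub_add_norm_sub (f (ex θ) * σ (b (ex θ))) (α * σ (b (ex θ))) (α * σ κ)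
      rwa [← sub_mul, ← mul_sub α, norm_mul, norm_mul, ← map_sub, s1, s1, e, mul_one] at this)
  rw [intervalIntegral.integral_add (gin hf.1 _ _ _) ((gin h.h1.1 _ _ _).const_mul _),
    intervalIntegral.integral_const_mul] at q3
  have q4 := ad (τ / π) τ (by positivity) (div_le_self t0.le (by linarith [Real.pi_gt_three]))
  rw [div_mul_eq_mul_div, div_le_iff₀ pi_pos] at q4
  rw [show D * W τ / τ * τ ^ 2 = D * (τ * W τ) by field_simp] at q1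
  linarith [mul_le_mul_of_nonneg_left q4 (add_nonneg D0 E0)]

theorem nec (hm : MonotoneOn ω (Ioo 0 1)) (hp : ∀ t ∈ Ioo (0 : ℝ) 1, 0 < ω t)
    (h : ∀ f Θ, BMO ω f → (∀ θ, ‖f (ex θ)‖ ≤ 2) → H1 f → DifferentiableOn ℂ Θ (ball 0 1) →
      (∀ z ∈ ball (0 : ℂ) 1, ‖Θ z‖ ≤ 1) → Rad Θ → Tw (fun t => ω (min t (1 / 2))) (ext f) Θ (1 / 200) →
        BMO ω (f * bv Θ)) :
    ∃ C, ∀ s t, 0 < s → s ≤ t → t ≤ 1 → s * ω (min t (1 / 2)) ≤ C * (t * ω (min s (1 / 2))) := by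
  have hW := mo hm hp
  have two : ∀ Ξ g M, BV Ξ g M → BMO ω g → ∃ D, 0 ≤ D ∧ ∀ s a τ τ' : ℝ, 0 < s → s ≤ τ → s ≤ τ' → τ ≤ 1 → τ' ≤ 1 →
      ‖Ξ ((1 - τ : ℝ) * ex a) - Ξ ((1 - τ' : ℝ) * ex a)‖ ≤ D * ω (min s (1 / 2)) / s * (τ + τ') :=
    fun Ξ g M h1 h2 => by
      obtain ⟨D, D0, hD⟩ := frm hm hp h2
      refine ⟨750 * D, by positivity, fun s a τ τ' s0 s1 s2 t1 t2 => ?_⟩
      obtain ⟨c, hc⟩ := hD s a s0 (s1.trans t1)
      have e1 := K1 h1.h1 hc (s0.trans_le s1) t1 s1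
      have e2 := K1 h1.h1 hc (s0.trans_le s2) t2 s2
      rw [h1.ext (pt (s0.trans_le s1) t1 (ex_norm a)).2] at e1
      rw [h1.ext (pt (s0.trans_le s2) t2 (ex_norm a)).2, norm_sub_rev] at e2
      rw [mul_assoc, mul_div_assoc]
      linarith [norm_sub_le_norm_sub_add_norm_sub (Ξ ((1 - τ : ℝ) * ex a)) c (Ξ ((1 - τ' : ℝ) * ex a))]
  have tb := fun f i E E0 => tob (f := f) hm hp i (E := E) E0
  obtain ⟨W, w⟩ : ∃ W : ℝ → ℝ, ∀ t, ω (min t (1 / 2)) = W t := ⟨_, fun _ => rfl⟩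
  have bd : ∀ t, t ≤ 1 → 0 < t → W t ≤ W 1 := fun t e t0 => w t ▸ w 1 ▸ hW.mono t 1 t0 e
  simp only [w] at hW two tb h ⊢
  have W2 := hW.pos (1 / 2) (by norm_num)
  by_cases h0 : ∀ c, 0 < c → ∃ t, 0 < t ∧ W t < c
  swap
  · push Not at h0
    obtain ⟨c, c0, hc⟩ := h0
    refine ⟨W 1 / c, fun s t s0 s1 t1 => ?_⟩
    rw [div_mul_eq_mul_div, le_div_iff₀ c0, mul_comm s, mul_assoc]
    exact mul_le_mul (bd t t1 (s0.trans_le s1)) (mul_le_mul s1 (hc s s0) c0.le (s0.le.trans s1))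
      (by positivity) (hW.pos 1 one_pos).le
  have b1 : BV 1 1 1 := ⟨differentiableOn_const 1, by simp, Eventually.of_forall fun _ => tendsto_const_nhds⟩
  have r1 : Rad id := Eventually.of_forall fun θ => ⟨_, ex_norm θ, radt _⟩
  have i1 : ∀ z ∈ ball (0 : ℂ) 1, ‖id z‖ ≤ 1 := fun z hz => (mem_ball_zero_iff.1 hz).le
  obtain ⟨D, D0, hD⟩ := two _ _ _ (rbv differentiableOn_id i1 r1).1 (one_mul (bv id) ▸ h 1 id
    (tb _ b1.h1.1 0 le_rfl fun a h _ _ => ⟨1, by simp⟩) (by simp) b1.h1 differentiableOn_id i1 r1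
      ⟨1 / W (1 / 2), by positivity, fun z hz e => by
        rw [div_mul_eq_mul_div, le_div_iff₀ W2, b1.ext hz]
        simpa using hW.mono (1 / 2) (1 - ‖z‖) (by norm_num) (by linarith [show ‖z‖ < _ from e])⟩)
  have hc : ∀ t, 0 < t → t ≤ 1 → 1 / (6 * D + 1) * t ≤ W t := fun t t0 t1 => by
    have := hD (t / 2) 0 (t / 2) t (half_pos t0) le_rfl (by linarith) (by linarith) t1
    rw [id, id, ← sub_mul, norm_mul, ex_norm, ← ofReal_sub, norm_real, Real.norm_of_nonneg (by linarith),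
      show D * W (t / 2) / (t / 2) * (t / 2 + t) = 3 * D * W (t / 2) by field_simp; ring] at this
    rw [div_mul_eq_mul_div, div_le_iff₀ (by positivity)]
    linarith [hW.pos t t0, mul_le_mul_of_nonneg_left (hW.mono _ t (half_pos t0) (by linarith)) D0]
  by_contra! k
  obtain ⟨Θ, a1, a2, a3, ⟨T, T0, a4⟩, a5⟩ := cex2 hW h0 (by positivity) hc k
  have n2 : ∀ z : ℂ, ‖z‖ ≤ 1 → ‖1 - z‖ ≤ 2 := fun z e => by linarith [norm_sub_le 1 z, norm_one (α := ℂ)]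
  have b2 : BV (fun z => 1 - z) (fun z => 1 - z) 2 := ⟨by fun_prop, fun z hz => n2 z (i1 z hz),
    Eventually.of_forall fun θ => (radt _).const_sub 1⟩
  have b4 : BMO ω fun z => 1 - z := tb _ b2.h1.1 (8 * (6 * D + 1)) (by positivity) fun a s s0 s1 => ⟨1 - ex a, by
    have p := Real.pi_gt_three
    have := hc (s / π) (by positivity) ((div_le_one pi_pos).2 (by linarith))
    rw [div_mul_div_comm, div_le_iff₀ (by positivity)] at this
    refine (intervalIntegral.integral_mono_on (by linarith) (gin b2.h1.1 _ _ _) (intervalIntegrable_const (c := s))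
      fun θ hθ => ?_).trans ?_
    · rw [sub_sub_sub_cancel_left]
      exact (ex_sub _ _).trans (abs_le.2 ⟨by linarith [hθ.2], by linarith [hθ.1]⟩)
    rw [intervalIntegral.integral_const, smul_eq_mul]
    nlinarith [mul_le_mul_of_nonneg_left this s0.le, mul_le_mul_of_nonneg_left Real.pi_le_four
      (show 0 ≤ s * (W (s / π) * (6 * D + 1)) by have := hW.pos (s / π) (by positivity); positivity)]⟩
  have b3 := (rbv a1 a2 a3).1
  obtain ⟨E, E0, hE⟩ := two (fun z => (1 - z) * Θ z) _ _ ⟨b2.d.mul a1, fun z hz => norm_mul_le_of_le (b2.b z hz)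
    (a2 z hz), (b2.l.and b3.l).mono fun θ e => e.1.mul e.2⟩ (h (fun z => 1 - z) Θ b4
      (fun θ => n2 _ (ex_norm θ).le) b2.h1 a1 a2 a3
        ⟨T, T0, fun z hz e => b2.ext hz ▸ a4 z hz e⟩)
  obtain ⟨K, hK⟩ := exists_nat_gt (180 * E)
  obtain ⟨s, t, ζ, s0, s1, t1, e, z1, z2, z3⟩ := a5 K
  obtain ⟨a, -, ea⟩ := polar ζ
  rw [z1, ofReal_one, one_mul] at ea
  have := hE s a (10 * t) (5 * t) s0 (by linarith) (by linarith) (by linarith) (by linarith)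
  rw [← ea, z2, mul_zero, sub_zero, norm_mul, div_mul_eq_mul_div, le_div_iff₀ s0] at this
  nlinarith [mul_lt_mul_of_pos_right hK (mul_pos (s0.trans_le s1) (hW.pos s s0)),
    mul_le_mul_of_nonneg_right z3 s0.le]

end Pool.Agent.H.MP_2feb19_an
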